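import Mathlib

set_option autoImplicit false

open Finset

namespace Pool.Agent.H291Z.Kos

variable {B : Type} [LinearOrder B]

/-- sign of moving `b` past the smaller elements of `S` -/
def sg (b : B) (S : Finset B) : ℤ := (-1) ^ (S.filter (· < b)).card

lemma sg_mul_self (b : B) (S : Finset B) : sg b S * sg b S = 1 := by
  unfold sg; rw [← pow_add, ← two_mul, pow_mul]; simp

lemma sg_insert {b c : B} {S : Finset B} (hc : c ∉ S) :
    sg b (insert c S) = if c < b then - sg b S else sg b S := by
  unfold sg
  rw [filter_insert]
  split_ifs with h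
  · rw [card_insert_of_notMem (by simp [hc]), pow_succ]; ring
  · rfl

lemma sg_insert_self (b : B) (S : Finset B) : sg b (insert b S) = sg b S := by
  unfold sg
  rw [filter_insert]; simp

section ops
variable {M : Type} [AddCommGroup M]

/-- contraction -/
def io (b : B) (f : Finset B → M) : Finset B → M :=
  fun S => if b ∈ S then 0 else sg b S • f (insert b S)

/-- wedge -/
def ep (b : B) (f : Finset B → M) : Finset B → M :=
  fun S => if b ∈ S then sg b S • f (S.erase b) else 0

lemma io_io (b c : B) (f : Finset B → M) (S : Finset B) :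
    io b (io c f) S + io c (io b f) S = 0 := by
  unfold io
  by_cases hb : b ∈ S
  · simp [hb]
  by_cases hc : c ∈ S
  · simp [hc]
  by_cases hbc : b = c
  · subst hbc; simp
  have h1 : c ∉ insert b S := by simp [hc, Ne.symm hbc]
  have h2 : b ∉ insert c S := by simp [hb, hbc]
  simp only [hb, hc, h1, h2, if_false]
  rw [sg_insert hb, sg_insert hc, insert_comm c b, smul_smul, smul_smul, ← add_smul]
  rcases lt_or_gt_of_ne hbc with h | h
  · simp [h, not_lt.2 h.le, mul_comm]
  · simp [h, not_lt.2 h.le, mul_comm]

lemma ep_io_self (b : B) (f : Finset B → M) (S : Finset B) :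
    ep b (io b f) S = if b ∈ S then f S else 0 := by
  unfold ep io
  split_ifs with h h2
  · simp at h2
  · have : sg b (S.erase b) = sg b S := by
      conv_rhs => rw [← insert_erase h, sg_insert_self]
    rw [insert_erase h, this, smul_smul, sg_mul_self, one_smul]
  · rfl

lemma io_ep (b c : B) (f : Finset B → M) (S : Finset B) :
    io c (ep b f) S + ep b (io c f) S = if c = b then f S else 0 := by
  by_cases hbc : c = b
  · subst hbc
    rw [ep_io_self]
    unfold io ep
    by_cases h : c ∈ S
    · simp [h]
    · simp [h, sg_insert_self, erase_insert h, smul_smul, sg_mul_self]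
  · unfold io ep
    by_cases hc : c ∈ S
    · have : c ∈ S.erase b := by simp [hc, hbc]
      simp [hc, hbc, this]
    by_cases hb : b ∈ S
    · have h1 : b ∈ insert c S := by simp [hb]
      have h2 : c ∉ S.erase b := by simp [hc]
      simp only [hc, hb, h1, h2, hbc, if_true, if_false]
      have h3 : (insert c S).erase b = insert c (S.erase b) := by
        rw [erase_insert_of_ne hbc]
      have h4 : sg c S = if b < c then - sg c (S.erase b) else sg c (S.erase b) := by
        conv_lhs => rw [← insert_erase hb]
        exact sg_insert (by simp)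
      rw [h3, sg_insert hc, smul_smul, smul_smul, ← add_smul, h4]
      rcases lt_or_gt_of_ne hbc with h | h
      · simp [h, not_lt.2 h.le, mul_comm]
      · simp [h, not_lt.2 h.le, mul_comm]
    · have h1 : b ∉ insert c S := by simp [hb, Ne.symm hbc]
      simp [hc, hb, h1, hbc]

lemma io_map {N : Type} [AddCommGroup N] (φ : M →+ N) (b : B) (f : Finset B → M) (S : Finset B) :
    io b (fun T => φ (f T)) S = φ (io b f S) := by
  unfold io; split_ifs <;> simp

lemma ep_map {N : Type} [AddCommGroup N] (φ : M →+ N) (b : B) (f : Finset B → M) (S : Finset B) :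
    ep b (fun T => φ (f T)) S = φ (ep b f S) := by
  unfold ep; split_ifs <;> simp

lemma io_add (b : B) (f g : Finset B → M) (S : Finset B) :
    io b (fun T => f T + g T) S = io b f S + io b g S := by
  unfold io; split_ifs <;> simp

lemma io_sub (b : B) (f g : Finset B → M) (S : Finset B) :
    io b (fun T => f T - g T) S = io b f S - io b g S := by
  unfold io; split_ifs <;> simp [smul_sub]

lemma io_sum {κ : Type} (t : Finset κ) (b : B) (f : κ → Finset B → M) (S : Finset B) :
    io b (fun T => ∑ i ∈ t, f i T) S = ∑ i ∈ t, io b (f i) S := by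
  unfold io; split_ifs <;> simp [Finset.smul_sum]

lemma ep_sum {κ : Type} (t : Finset κ) (b : B) (f : κ → Finset B → M) (S : Finset B) :
    ep b (fun T => ∑ i ∈ t, f i T) S = ∑ i ∈ t, ep b (f i) S := by
  unfold ep; split_ifs <;> simp [Finset.smul_sum]

end ops

variable {R : Type} [CommRing R]

lemma io_mul (b : B) (r : R) (f : Finset B → R) (S : Finset B) :
    io b (fun T => r * f T) S = r * io b f S := io_map (AddMonoidHom.mulLeft r) b f S

lemma ep_mul (b : B) (r : R) (f : Finset B → R) (S : Finset B) :
    ep b (fun T => r * f T) S = r * ep b f S := ep_map (AddMonoidHom.mulLeft r) b f S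

variable [Fintype B]

/-- Koszul differential -/
def dd (p : B → R) (f : Finset B → R) : Finset B → R := fun S => ∑ b, p b * io b f S

lemma dd_add (p : B → R) (f g : Finset B → R) (S : Finset B) :
    dd p (fun T => f T + g T) S = dd p f S + dd p g S := by
  simp [dd, io_add, mul_add, sum_add_distrib]

lemma dd_sub (p : B → R) (f g : Finset B → R) (S : Finset B) :
    dd p (fun T => f T - g T) S = dd p f S - dd p g S := by
  simp [dd, io_sub, mul_sub, sum_sub_distrib]

lemma dd_mul (p : B → R) (r : R) (f : Finset B → R) (S : Finset B) :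
    dd p (fun T => r * f T) S = r * dd p f S := by
  simp only [dd, io_mul, mul_sum]
  exact sum_congr rfl fun _ _ => by ring

lemma dd_sum {κ : Type} (t : Finset κ) (p : B → R) (f : κ → Finset B → R) (S : Finset B) :
    dd p (fun T => ∑ i ∈ t, f i T) S = ∑ i ∈ t, dd p (f i) S := by
  simp only [dd, io_sum, mul_sum]
  exact sum_comm

lemma dd_zero (p : B → R) (S : Finset B) : dd p (fun _ => 0) S = 0 := by
  simp [dd, io]

lemma io_dd (p : B → R) (c : B) (f : Finset B → R) (S : Finset B) :
    io c (dd p f) S = - dd p (io c f) S := by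
  have : io c (dd p f) S = ∑ b, p b * io c (io b f) S := by
    unfold dd
    rw [io_sum]
    exact sum_congr rfl fun b _ => io_mul _ _ _ _
  rw [this, dd, ← sum_neg_distrib]
  refine sum_congr rfl fun b _ => ?_
  rw [← mul_neg, eq_neg_of_add_eq_zero_left (io_io c b f S)]

lemma dd_ep (p : B → R) (b : B) (f : Finset B → R) (S : Finset B) :
    dd p (ep b f) S = p b * f S - ep b (dd p f) S := by
  have h1 : ep b (dd p f) S = ∑ c, p c * ep b (io c f) S := by
    unfold dd
    rw [ep_sum]
    exact sum_congr rfl fun c _ => ep_mul _ _ _ _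
  rw [h1, dd, eq_sub_iff_add_eq, ← sum_add_distrib]
  simp only [← mul_add, io_ep]
  simp

lemma dd_map {R' : Type} [CommRing R'] (φ : R →+* R') (p : B → R) (f : Finset B → R)
    (S : Finset B) : dd (fun b => φ (p b)) (fun T => φ (f T)) S = φ (dd p f S) := by
  simp only [dd, map_sum, map_mul]
  exact sum_congr rfl fun b _ => congrArg _ (io_map φ.toAddMonoidHom b f S)

lemma dd_dd [Algebra ℚ R] (p : B → R) (f : Finset B → R) (S : Finset B) :
    dd p (dd p f) S = 0 := by
  have h1 : dd p (dd p f) S = ∑ c, ∑ b, p c * p b * io c (io b f) S := by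
    conv_lhs => unfold dd
    refine sum_congr rfl fun c _ => ?_
    rw [io_sum, mul_sum]
    refine sum_congr rfl fun b _ => ?_
    rw [io_mul]; ring
  have h2 : dd p (dd p f) S + dd p (dd p f) S = 0 := by
    conv_lhs => lhs; rw [h1, sum_comm]
    rw [h1, ← sum_add_distrib]
    refine sum_eq_zero fun c _ => ?_
    rw [← sum_add_distrib]
    refine sum_eq_zero fun b _ => ?_
    have := io_io b c f S
    linear_combination (p c * p b) * this
  have h3 : dd p (dd p f) S = (1 / 2 : ℚ) • (dd p (dd p f) S + dd p (dd p f) S) := by
    rw [← two_smul ℚ, smul_smul]; norm_num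
  rw [h3, h2, smul_zero]

end Pool.Agent.H291Z.Kos
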