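import Pool.Agent.H291Z.KosA

set_option autoImplicit false

open Finset MvPolynomial

namespace Pool.Agent.H291Z.Kos

section sup
variable {σ : Type} {A : Type} [CommRing A]

/-- every monomial of `F` satisfies `Q` -/
def SupP (Q : (σ →₀ ℕ) → Prop) (F : MvPolynomial σ A) : Prop := ∀ m, coeff m F ≠ 0 → Q m

variable {Q Q' : (σ →₀ ℕ) → Prop} {F G : MvPolynomial σ A}

lemma SupP.zero : SupP Q (0 : MvPolynomial σ A) := fun m h => by simp at h

lemma SupP.mono (h : SupP Q F) (hQ : ∀ m, Q m → Q' m) : SupP Q' F := fun m hm => hQ m (h m hm)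

lemma SupP.and (h : SupP Q F) (h' : SupP Q' F) : SupP (fun m => Q m ∧ Q' m) F :=
  fun m hm => ⟨h m hm, h' m hm⟩

lemma SupP.eq_zero (h : SupP Q F) (hQ : ∀ m, ¬ Q m) : F = 0 := by
  ext m; by_contra hm; exact hQ m (h m (by simpa using hm))

lemma SupP.add (h : SupP Q F) (h' : SupP Q G) : SupP Q (F + G) := by
  intro m hm
  by_cases h1 : coeff m F = 0
  · exact h' m (by simpa [h1] using hm)
  · exact h m h1

lemma SupP.neg (h : SupP Q F) : SupP Q (-F) := fun m hm => h m (by simpa using hm)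

lemma SupP.sub (h : SupP Q F) (h' : SupP Q G) : SupP Q (F - G) := by
  rw [sub_eq_add_neg]; exact h.add h'.neg

lemma SupP.zsmul (h : SupP Q F) (z : ℤ) : SupP Q (z • F) := by
  intro m hm
  apply h m
  intro h0
  apply hm
  rw [coeff_smul, h0, smul_zero]

lemma SupP.sum {κ : Type} {t : Finset κ} {f : κ → MvPolynomial σ A} (h : ∀ i ∈ t, SupP Q (f i)) :
    SupP Q (∑ i ∈ t, f i) :=
  Finset.sum_induction f (SupP Q) (fun _ _ => SupP.add) SupP.zero h

lemma SupP.mul {Q'' : (σ →₀ ℕ) → Prop} (h : SupP Q F) (h' : SupP Q' G)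
    (hQ : ∀ m m', Q m → Q' m' → Q'' (m + m')) : SupP Q'' (F * G) := by
  classical
  intro m hm
  rw [coeff_mul] at hm
  obtain ⟨x, hx, hx0⟩ := Finset.exists_ne_zero_of_sum_ne_zero hm
  rw [← mem_antidiagonal.1 hx]
  exact hQ _ _ (h _ (left_ne_zero_of_mul hx0)) (h' _ (right_ne_zero_of_mul hx0))

lemma SupP.triv (F : MvPolynomial σ A) : SupP (fun _ => True) F := fun _ _ => trivial

lemma SupP.monomial {m : σ →₀ ℕ} (c : A) (h : Q m) : SupP Q (monomial m c) := by
  classical
  intro m' hm'
  rw [coeff_monomial] at hm'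
  split_ifs at hm' with h1
  · exact h1 ▸ h
  · exact absurd rfl hm'

lemma SupP.C_mul (h : SupP Q F) (c : A) : SupP Q (C c * F) := by
  intro m hm
  rw [coeff_C_mul] at hm
  exact h m (right_ne_zero_of_mul hm)

lemma SupP.natCast_mul (h : SupP Q F) (n : ℕ) : SupP Q ((n : MvPolynomial σ A) * F) := by
  have := h.C_mul (n : A)
  rwa [map_natCast] at this

/-- upward closed sets of monomials -/
def Up (Q : (σ →₀ ℕ) → Prop) : Prop := ∀ m m', Q m' → Q (m + m')

lemma SupP.mul_up (hQ : Up Q) (F : MvPolynomial σ A) (h' : SupP Q G) : SupP Q (F * G) :=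
  (SupP.triv F).mul h' fun m m' _ h => hQ m m' h

open Classical in
/-- the part of `F` on monomials satisfying `Q` -/
noncomputable def proj (Q : (σ →₀ ℕ) → Prop) (F : MvPolynomial σ A) : MvPolynomial σ A :=
  ∑ m ∈ F.support.filter Q, monomial m (coeff m F)

open Classical in
lemma coeff_proj (Q : (σ →₀ ℕ) → Prop) (F : MvPolynomial σ A) (m : σ →₀ ℕ) :
    coeff m (proj Q F) = if Q m then coeff m F else 0 := by
  unfold proj
  rw [coeff_sum]
  simp only [coeff_monomial]
  rw [Finset.sum_ite_eq']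
  by_cases h : coeff m F = 0 <;> by_cases h2 : Q m <;> simp [h, h2]

lemma SupP.proj (h : SupP Q' F) : SupP (fun m => Q m ∧ Q' m) (proj Q F) := by
  intro m hm
  rw [coeff_proj] at hm
  split_ifs at hm with h1
  · exact ⟨h1, h m hm⟩
  · exact absurd rfl hm

lemma SupP.sub_proj (h : SupP Q' F) : SupP (fun m => ¬ Q m ∧ Q' m) (F - Kos.proj Q F) := by
  intro m hm
  rw [coeff_sub, coeff_proj] at hm
  split_ifs at hm with h1
  · simp at hm
  · exact ⟨h1, h m (by simpa using hm)⟩

lemma SupP.io {B : Type} [LinearOrder B] {f : Finset B → MvPolynomial σ A} {b : B} {S : Finset B}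
    (h : b ∉ S → SupP Q (f (insert b S))) : SupP Q (io b f S) := by
  unfold Kos.io
  split_ifs with h1
  · exact SupP.zero
  · exact (h h1).zsmul _

lemma SupP.ep {B : Type} [LinearOrder B] {f : Finset B → MvPolynomial σ A} {b : B} {S : Finset B}
    (h : b ∈ S → SupP Q (f (S.erase b))) : SupP Q (ep b f S) := by
  unfold Kos.ep
  split_ifs with h1
  · exact (h h1).zsmul _
  · exact SupP.zero

lemma SupP.dd {B : Type} [LinearOrder B] [Fintype B] (hQ : Up Q) (p : B → MvPolynomial σ A)
    {f : Finset B → MvPolynomial σ A} (h : ∀ S, SupP Q (f S)) (S : Finset B) :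
    SupP Q (dd p f S) :=
  SupP.sum fun _ _ => SupP.mul_up hQ _ (SupP.io fun _ => h _)

/-- an algebra map killing a variable of every monomial kills the polynomial -/
lemma SupP.kill {A' : Type} [CommRing A'] [Algebra A A'] (φ : MvPolynomial σ A →ₐ[A] A')
    (h : SupP Q F) (hQ : ∀ m, Q m → ∃ v, m v ≠ 0 ∧ φ (X v) = 0) : φ F = 0 := by
  rw [as_sum F, map_sum]
  refine Finset.sum_eq_zero fun m hm => ?_
  obtain ⟨v, hv, hv0⟩ := hQ m (h m (mem_support_iff.1 hm))
  rw [monomial_eq, map_mul, Finsupp.prod, map_prod]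
  rw [Finset.prod_eq_zero (Finsupp.mem_support_iff.2 hv) (by rw [map_pow, hv0, zero_pow hv]),
    mul_zero]

lemma SupP.cong (hQ : Up Q) (φ : MvPolynomial σ A →ₐ[A] MvPolynomial σ A)
    (hX : ∀ v, SupP Q (φ (X v) - X v)) (F : MvPolynomial σ A) : SupP Q (φ F - F) := by
  induction F using MvPolynomial.induction_on with
  | C a =>
    have : φ (C a) = C a := φ.commutes a
    rw [this, sub_self]; exact SupP.zero
  | add p q hp hq =>
    have : φ (p + q) - (p + q) = (φ p - p) + (φ q - q) := by rw [map_add]; ring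
    rw [this]; exact hp.add hq
  | mul_X p v hp =>
    have : φ (p * X v) - p * X v = φ (X v) * (φ p - p) + p * (φ (X v) - X v) := by
      rw [map_mul]; ring
    rw [this]
    exact (SupP.mul_up hQ _ hp).add (SupP.mul_up hQ _ (hX v))

lemma graded_monomial {M : Type} [AddCommMonoid M] (w : σ → M) {A' : Type} [CommRing A']
    [Algebra A A'] (Hm : M → A' → Prop) (hC : ∀ c : A, Hm 0 (algebraMap A A' c))
    (hmul : ∀ n n' x y, Hm n x → Hm n' y → Hm (n + n') (x * y))
    (φ : MvPolynomial σ A →ₐ[A] A') (hX : ∀ v, Hm (w v) (φ (X v))) (m : σ →₀ ℕ) (c : A) :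
    Hm (Finsupp.weight w m) (φ (monomial m c)) := by
  have h1 : Hm 0 1 := by simpa using hC 1
  have hpow : ∀ v (e : ℕ), Hm (e • w v) (φ (X v) ^ e) := by
    intro v e
    induction e with
    | zero => simpa using h1
    | succ e ih => rw [succ_nsmul, pow_succ]; exact hmul _ _ _ _ ih (hX v)
  have hprod : ∀ t : Finset σ, Hm (∑ v ∈ t, m v • w v) (∏ v ∈ t, φ (X v) ^ m v) := by
    classical
    intro t
    induction t using Finset.induction_on with
    | empty => simpa using h1
    | insert v t hv ih => rw [sum_insert hv, prod_insert hv]; exact hmul _ _ _ _ (hpow v _) ih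
  rw [monomial_eq, map_mul, Finsupp.prod, map_prod, Finsupp.weight_apply, Finsupp.sum]
  have h2 : φ (C c) = algebraMap A A' c := φ.commutes c
  simp only [map_pow]
  have := hmul _ _ _ _ (hC c) (hprod m.support)
  rwa [zero_add, ← h2] at this

end sup

section deg
variable {k : ℕ} {ι ι' : Type}

/-- the polynomial ring -/
abbrev PR (k : ℕ) (ι : Type) := MvPolynomial (Fin k × ι) ℂ

/-- row weights -/
def rw1 (k : ℕ) (ι : Type) : Fin k × ι → Fin k → ℕ := fun x => Pi.single x.1 1

/-- multidegree of a monomial -/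
noncomputable abbrev md (m : Fin k × ι →₀ ℕ) : Fin k → ℕ := Finsupp.weight (rw1 k ι) m

/-- the multidegrees of all monomials of `F` satisfy `P` -/
abbrev SupD (P : (Fin k → ℕ) → Prop) (F : PR k ι) : Prop := SupP (fun m => P (md m)) F

lemma supD_X (r : Fin k) (j : ι) : SupD (fun d => d = Pi.single r 1) (X (r, j) : PR k ι) :=
  SupP.monomial _ (by simp [md, Finsupp.weight_single, rw1])

lemma SupD.mul {P P' P'' : (Fin k → ℕ) → Prop} {F G : PR k ι} (h : SupD P F) (h' : SupD P' G)
    (hP : ∀ d d', P d → P' d' → P'' (d + d')) : SupD P'' (F * G) :=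
  SupP.mul h h' fun m m' a b => by
    simp only [md, map_add]; exact hP _ _ a b

lemma supD_C (c : ℂ) : SupD (fun d => d = 0) (C c : PR k ι) :=
  SupP.monomial _ (by simp [md])

lemma SupD.map {P : (Fin k → ℕ) → Prop} {F : PR k ι} (φ : PR k ι →ₐ[ℂ] PR k ι')
    (hX : ∀ r j, SupD (fun d => d = Pi.single r 1) (φ (X (r, j)))) (h : SupD P F) :
    SupD P (φ F) := by
  rw [as_sum F, map_sum]
  refine SupP.sum fun m hm => ?_
  have := graded_monomial (rw1 k ι) (fun n (x : PR k ι') => SupD (fun d => d = n) x)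
    (fun c => supD_C c)
    (fun n n' x y hx hy => SupD.mul hx hy fun d d' a b => by rw [a, b]) φ
    (fun v => hX v.1 v.2) m (coeff m F)
  exact this.mono fun m' hm' => by rw [hm']; exact h m (mem_support_iff.1 hm)

lemma md_apply [Fintype ι] (m : Fin k × ι →₀ ℕ) (r : Fin k) : md m r = ∑ j, m (r, j) := by
  classical
  rw [md, Finsupp.weight_eq_sum, Finset.sum_apply, Fintype.sum_prod_type]
  rw [Finset.sum_eq_single r]
  · simp [rw1]
  · intro r' _ hr
    simp [rw1, Pi.single_eq_of_ne hr.symm]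
  · simp

lemma SupD.pderiv {P : (Fin k → ℕ) → Prop} {F : PR k ι} (h : SupD P F) (r : Fin k) (j : ι) :
    SupD (fun d => P (d + Pi.single r 1)) (pderiv (r, j) F) := by
  classical
  rw [as_sum F, map_sum]
  refine SupP.sum fun m hm => ?_
  rw [pderiv_monomial]
  by_cases h0 : m (r, j) = 0
  · simp [h0, SupP.zero]
  · refine SupP.monomial _ ?_
    have := Finsupp.weight_sub_single_add (w := rw1 k ι) h0
    simp only [md]
    rw [show (Pi.single r 1 : Fin k → ℕ) = rw1 k ι (r, j) from rfl, this]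
    exact h m (mem_support_iff.1 hm)

lemma euler_row [Fintype ι] {F : PR k ι} (r : Fin k) (c n : ℕ)
    (h : SupD (fun d => d r + c = n) F) :
    ∑ j, X (r, j) * pderiv (r, j) F + (c : PR k ι) * F = (n : PR k ι) * F := by
  classical
  rw [as_sum F]
  simp only [map_sum, mul_sum]
  rw [sum_comm, ← sum_add_distrib]
  refine sum_congr rfl fun m hm => ?_
  have h1 := h m (mem_support_iff.1 hm)
  simp only [X_mul_pderiv_monomial]
  rw [← Finset.sum_smul, ← md_apply, ← h1, nsmul_eq_mul]
  push_cast; ring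

end deg

end Pool.Agent.H291Z.Kos
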