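import Pool.Agent.H291Z.KosB

set_option autoImplicit false

open Finset MvPolynomial

namespace Pool.Agent.H291Z.Kos

variable {k : ℕ} {ι ι' : Type} {B : Type} [LinearOrder B] [Fintype B]

/-- chains of exterior degree `q` and multidegree `a` -/
def CH (ex : B → Fin k → ℕ) (q : ℕ) (a : Fin k → ℕ) (f : Finset B → PR k ι) : Prop :=
  ∀ S, SupD (fun d => S.card = q ∧ d + ∑ b ∈ S, ex b = a) (f S)

variable {ex : B → Fin k → ℕ} {q : ℕ} {a : Fin k → ℕ}

omit [LinearOrder B] [Fintype B] in
lemma CH.zero : CH ex q a (fun _ => (0 : PR k ι)) := fun _ => SupP.zero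

omit [LinearOrder B] [Fintype B] in
lemma CH.add {f g : Finset B → PR k ι} (h : CH ex q a f) (h' : CH ex q a g) :
    CH ex q a (fun S => f S + g S) := fun S => (h S).add (h' S)

omit [LinearOrder B] [Fintype B] in
lemma CH.sub {f g : Finset B → PR k ι} (h : CH ex q a f) (h' : CH ex q a g) :
    CH ex q a (fun S => f S - g S) := fun S => (h S).sub (h' S)

omit [LinearOrder B] [Fintype B] in
lemma CH.C_mul {f : Finset B → PR k ι} (h : CH ex q a f) (c : ℂ) :
    CH ex q a (fun S => C c * f S) := fun S => (h S).C_mul c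

omit [LinearOrder B] [Fintype B] in
lemma CH.proj {f : Finset B → PR k ι} (h : CH ex q a f) (Q : (Fin k × ι →₀ ℕ) → Prop) :
    CH ex q a (fun S => proj Q (f S)) := fun S => (h S).proj.mono fun _ hm => hm.2

omit [LinearOrder B] [Fintype B] in
lemma CH.map {f : Finset B → PR k ι} (φ : PR k ι →ₐ[ℂ] PR k ι')
    (hX : ∀ r j, SupD (fun d => d = Pi.single r 1) (φ (X (r, j)))) (h : CH ex q a f) :
    CH ex q a (fun S => φ (f S)) := fun S => SupD.map φ hX (h S)

omit [Fintype B] in
lemma CH.io {f : Finset B → PR k ι} (h : CH ex (q + 1) a f) (b : B) (S : Finset B) :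
    SupD (fun d => S.card = q ∧ d + ex b + ∑ c ∈ S, ex c = a) (io b f S) :=
  SupP.io fun hb => (h (insert b S)).mono fun m hm => by
    rw [card_insert_of_notMem hb, sum_insert hb] at hm
    exact ⟨by omega, by rw [add_assoc]; exact hm.2⟩

lemma CH.dd {p : B → PR k ι} (hp : ∀ b, SupD (fun d => d = ex b) (p b))
    {f : Finset B → PR k ι} (h : CH ex (q + 1) a f) : CH ex q a (dd p f) := fun S =>
  SupP.sum fun b _ => SupD.mul (P'' := fun d => S.card = q ∧ d + ∑ b ∈ S, ex b = a)
    (hp b) (h.io b S) fun d d' h1 h2 =>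
    ⟨h2.1, by rw [h1, add_comm (ex b) d']; exact h2.2⟩

/-- vanishing of Koszul homology of the quotient by a monomial ideal -/
def Van (ex : B → Fin k → ℕ) (p : B → PR k ι) (X : (Fin k × ι →₀ ℕ) → Prop) (q : ℕ)
    (a : Fin k → ℕ) : Prop :=
  ∀ f, CH ex q a f → (∀ S, SupP X (dd p f S)) →
    ∃ h, CH ex (q + 1) a h ∧ ∀ S, SupP X (f S - dd p h S)

lemma Van.congr {p : B → PR k ι} {X Y : (Fin k × ι →₀ ℕ) → Prop} (h : Van ex p X q a)
    (hXY : ∀ m, X m ↔ Y m) : Van ex p Y q a := by
  have : X = Y := funext fun m => propext (hXY m)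
  rwa [← this]

lemma Van.mv {p : B → PR k ι} (hp : ∀ b, SupD (fun d => d = ex b) (p b))
    {X Y : (Fin k × ι →₀ ℕ) → Prop} (hX : Up X) (hY : Up Y)
    (h1 : Van ex p X q a) (h2 : Van ex p Y q a) (h3 : Van ex p (fun m => X m ∨ Y m) (q + 1) a) :
    Van ex p (fun m => X m ∧ Y m) q a := by
  intro f hf hd
  obtain ⟨u, hu, hu'⟩ := h1 f hf fun S => (hd S).mono fun _ h => h.1
  obtain ⟨v, hv, hv'⟩ := h2 f hf fun S => (hd S).mono fun _ h => h.2
  obtain ⟨w, hw, hw'⟩ := h3 (fun S => u S - v S) (hu.sub hv) (fun S => by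
    rw [dd_sub, show dd p u S - dd p v S = (f S - dd p v S) - (f S - dd p u S) by ring]
    exact ((hv' S).mono fun _ h => Or.inr h).sub ((hu' S).mono fun _ h => Or.inl h))
  set z : Finset B → PR k ι := fun S => u S - v S - dd p w S with hz
  have hzc : CH ex (q + 1) a z := (hu.sub hv).sub (CH.dd hp hw)
  have hz1 : ∀ S, SupP X (proj X (z S)) := fun S => (hzc S).proj.mono fun _ h => h.1
  have hz2 : ∀ S, SupP Y (z S - proj X (z S)) := fun S =>
    (hw' S).sub_proj.mono fun _ h => h.2.resolve_left h.1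
  refine ⟨fun S => u S - proj X (z S), hu.sub (hzc.proj X), fun S => SupP.and ?_ ?_⟩
  · rw [dd_sub, show f S - (dd p u S - dd p (fun T => proj X (z T)) S) =
      (f S - dd p u S) + dd p (fun T => proj X (z T)) S by ring]
    exact (hu' S).add (SupP.dd hX p hz1 S)
  · have e : (fun S => u S - proj X (z S)) =
        fun S => (v S + dd p w S) + (z S - proj X (z S)) := by
      funext S; simp only [hz]; ring
    rw [e, dd_add, dd_add, dd_dd, show f S - (dd p v S + 0 + dd p (fun T => z T - proj X (z T)) S)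
      = (f S - dd p v S) - dd p (fun T => z T - proj X (z T)) S by ring]
    exact (hv' S).sub (SupP.dd hY p hz2 S)

section glue
variable {κ : Type} [DecidableEq κ] {p : B → PR k ι} (hp : ∀ b, SupD (fun d => d = ex b) (p b))
  (us : κ → (Fin k × ι →₀ ℕ) → Prop) (hus : ∀ j, Up (us j)) (J : Finset κ)
  (HV : ∀ T ⊆ J, ∀ q', T.Nonempty → q + T.card ≤ q' + 2 → q ≤ q' →
    Van ex p (fun m => ∃ j ∈ T, us j m) q' a)

include hp hus HV in
lemma van_A (M : Finset κ) : M ⊆ J → ∀ T ⊆ J, Disjoint M T → ∀ q', T.Nonempty →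
    q + T.card ≤ q' + 1 → Van ex p (fun m => (∃ j ∈ T, us j m) ∨ ∀ j ∈ M, us j m) q' a := by
  induction M using Finset.induction_on with
  | empty =>
    intro _ T _ _ q' _ _ f _ _
    exact ⟨fun _ => 0, CH.zero, fun S m _ => Or.inr (by simp)⟩
  | insert i M hi ih =>
    intro hM T hT hd q' hne hq
    have hiT : i ∉ T := fun h => disjoint_left.1 hd (mem_insert_self i M) h
    have hM' : M ⊆ J := (subset_insert i M).trans hM
    have hd' : Disjoint M T := hd.mono_left (subset_insert i M)
    have hT' : insert i T ⊆ J := insert_subset (hM (mem_insert_self i M)) hT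
    have hc := hne.card_pos
    have h1 := ih hM' T hT hd' q' hne hq
    have h2 := HV (insert i T) hT' q' (insert_nonempty i T)
      (by rw [card_insert_of_notMem hiT]; omega) (by omega)
    have h3 := ih hM' (insert i T) hT' (by rw [disjoint_insert_right]; exact ⟨hi, hd'⟩) (q' + 1)
      (insert_nonempty i T) (by rw [card_insert_of_notMem hiT]; omega)
    refine (Van.mv hp ?_ ?_ h1 h2 (h3.congr ?_)).congr ?_
    · rintro m m' (⟨j, hj, h⟩ | h)
      · exact Or.inl ⟨j, hj, hus j _ _ h⟩
      · exact Or.inr fun j hj => hus j _ _ (h j hj)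
    · rintro m m' ⟨j, hj, h⟩
      exact ⟨j, hj, hus j _ _ h⟩
    · intro m
      simp only [mem_insert, exists_eq_or_imp]
      generalize (∃ j ∈ T, us j m) = P1
      generalize (∀ j ∈ M, us j m) = P2
      generalize us i m = P3
      tauto
    · intro m
      simp only [mem_insert, exists_eq_or_imp, forall_eq_or_imp]
      generalize (∃ j ∈ T, us j m) = P1
      generalize (∀ j ∈ M, us j m) = P2
      generalize us i m = P3
      tauto

include hp hus HV in
lemma glue (g : Finset B → PR k ι) (φ : κ → Finset B → PR k ι)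
    (hφ : ∀ j ∈ J, CH ex q a (φ j)) (hgφ : ∀ j ∈ J, ∀ S, SupP (us j) (g S - dd p (φ j) S))
    (M : Finset κ) : M ⊆ J → ∃ G, CH ex q a G ∧
      (∀ S, SupP (fun m => ∀ j ∈ M, us j m) (g S - dd p G S)) ∧
      ∀ j ∈ M, ∃ w, CH ex (q + 1) a w ∧ ∀ S, SupP (us j) (φ j S - G S - dd p w S) := by
  induction M using Finset.induction_on with
  | empty =>
    intro _
    exact ⟨fun _ => 0, CH.zero, fun S m _ => by simp, by simp⟩
  | insert i M hi ih =>
    intro hM
    have hM' : M ⊆ J := (subset_insert i M).trans hM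
    have hiJ : i ∈ J := hM (mem_insert_self i M)
    obtain ⟨G, hG, hG1, hG2⟩ := ih hM'
    have hV := van_A hp us hus J HV M hM' {i} (by simpa using hiJ) (by simpa using hi) q
      (singleton_nonempty i) (by simp)
    have hUp : Up (fun m => ∀ j ∈ M, us j m) := fun m m' h j hj => hus j _ _ (h j hj)
    obtain ⟨w, hw, hw'⟩ := hV (fun S => φ i S - G S) ((hφ i hiJ).sub hG) (fun S => by
      rw [dd_sub, show dd p (φ i) S - dd p G S = (g S - dd p G S) - (g S - dd p (φ i) S) by ring]
      exact ((hG1 S).mono fun _ h => Or.inr h).sub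
        ((hgφ i hiJ S).mono fun _ h => Or.inl ⟨i, mem_singleton_self i, h⟩))
    set X : (Fin k × ι →₀ ℕ) → Prop := fun m => ∀ j ∈ M, us j m with hX
    set z : Finset B → PR k ι := fun S => φ i S - G S - dd p w S with hz
    have hzc : CH ex q a z := ((hφ i hiJ).sub hG).sub (CH.dd hp hw)
    have hz1 : ∀ S, SupP X (proj X (z S)) := fun S => (hzc S).proj.mono fun _ h => h.1
    have hz2 : ∀ S, SupP (us i) (z S - proj X (z S)) := fun S =>
      (hw' S).sub_proj.mono fun _ h => by
        obtain ⟨j, hj, h'⟩ := h.2.resolve_right h.1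
        rwa [mem_singleton.1 hj] at h'
    refine ⟨fun S => G S + proj X (z S), hG.add (hzc.proj X), fun S => ?_, ?_⟩
    · have e1 : SupP X (g S - dd p (fun S => G S + proj X (z S)) S) := by
        rw [dd_add, ← sub_sub]
        exact (hG1 S).sub (SupP.dd hUp p hz1 S)
      have e2 : SupP (us i) (g S - dd p (fun S => G S + proj X (z S)) S) := by
        have e : (fun S => G S + proj X (z S)) =
            fun S => (φ i S - dd p w S) - (z S - proj X (z S)) := by
          funext S; simp only [hz]; ring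
        rw [e, dd_sub, dd_sub, dd_dd,
          show g S - (dd p (φ i) S - 0 - dd p (fun T => z T - proj X (z T)) S)
          = (g S - dd p (φ i) S) + dd p (fun T => z T - proj X (z T)) S by ring]
        exact (hgφ i hiJ S).add (SupP.dd (hus i) p hz2 S)
      exact (e1.and e2).mono fun m h j hj => by
        rcases mem_insert.1 hj with rfl | hj
        · exact h.2
        · exact h.1 j hj
    · intro j hj
      rcases mem_insert.1 hj with rfl | hj
      · refine ⟨w, hw, fun S => ?_⟩
        have := hz2 S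
        rwa [show z S - proj X (z S) = φ j S - (G S + proj X (z S)) - dd p w S by
          simp only [hz]; ring] at this
      · obtain ⟨w', hw1, hw2⟩ := hG2 j hj
        refine ⟨w', hw1, fun S => ?_⟩
        rw [show φ j S - (G S + proj X (z S)) - dd p w' S =
          (φ j S - G S - dd p w' S) - proj X (z S) by ring]
        exact (hw2 S).sub ((hz1 S).mono fun m h => h j hj)

end glue

end Pool.Agent.H291Z.Kos
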