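import Pool.Agent.H291Z.KosC

set_option autoImplicit false

open Finset MvPolynomial

namespace Pool.Agent.H291Z.Kos

variable {k : ℕ} {ι ι' : Type} {B : Type} [LinearOrder B] [Fintype B]

lemma supD_prod (F : Fin k → PR k ι) (hF : ∀ r, SupD (fun d => d = Pi.single r 1) (F r))
    (c : Fin k → ℕ) : SupD (fun d => d = c) (∏ r, F r ^ c r) := by
  have h1 : SupD (fun d => d = 0) (1 : PR k ι) := by simpa using supD_C (k := k) (ι := ι) 1
  have hpow : ∀ r (e : ℕ), SupD (fun d => d = e • Pi.single r 1) (F r ^ e) := by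
    intro r e
    induction e with
    | zero => simpa using h1
    | succ e ih =>
      rw [pow_succ]
      exact SupD.mul ih (hF r) fun d d' a b => by rw [a, b, succ_nsmul]
  have hprod : ∀ t : Finset (Fin k),
      SupD (fun d => d = ∑ r ∈ t, c r • Pi.single r 1) (∏ r ∈ t, F r ^ c r) := by
    intro t
    induction t using Finset.induction_on with
    | empty => simpa using h1
    | insert r t hr ih =>
      rw [prod_insert hr]
      exact SupD.mul (hpow r _) ih fun d d' a b => by rw [a, b, sum_insert hr]
  refine (hprod univ).mono fun m hm => ?_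
  rw [hm]; funext i
  simp [Finset.sum_apply, Pi.single_apply]

/-- the monomial of exponent `c` in column `j` -/
noncomputable def xm (j : ι) (c : Fin k → ℕ) : PR k ι := ∏ r, X (r, j) ^ c r

lemma supD_xm (j : ι) (c : Fin k → ℕ) : SupD (fun d => d = c) (xm j c) :=
  supD_prod _ (fun r => supD_X r j) c

lemma xm_succ (j : ι) (c : Fin k → ℕ) (r : Fin k) :
    xm j (c + Pi.single r 1) = X (r, j) * xm j c := by
  unfold xm
  simp only [Pi.add_apply, pow_add, prod_mul_distrib]
  rw [mul_comm, Finset.prod_eq_single r]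
  · simp
  · intro r' _ h; simp [Pi.single_eq_of_ne h]
  · simp

lemma sub_add_single {c : Fin k → ℕ} {r : Fin k} (h : c r ≠ 0) :
    c - Pi.single r 1 + Pi.single r 1 = c := by
  funext i
  by_cases hi : i = r
  · subst hi; simp; omega
  · simp [Pi.single_eq_of_ne hi]

lemma pderiv_xm [DecidableEq ι] (j j' : ι) (c : Fin k → ℕ) (r : Fin k) :
    pderiv (r, j) (xm j' c) =
      if j' = j then (c r : PR k ι) * xm j (c - Pi.single r 1) else 0 := by
  have h0 : ∀ (t : Finset (Fin k)), (r ∉ t ∨ j' ≠ j) →
      pderiv (r, j) (∏ r' ∈ t, (X (r', j') : PR k ι) ^ c r') = 0 := by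
    intro t
    induction t using Finset.induction_on with
    | empty => simp
    | insert r' t hr ih =>
      intro h
      have h1 : (r', j') ≠ (r, j) := by
        rintro h2
        rw [Prod.mk.injEq] at h2
        rcases h with h | h
        · exact h (by simp [h2.1])
        · exact h h2.2
      rw [prod_insert hr, Derivation.leibniz, ih (h.imp_left fun h h' => h (by simp [h'])),
        Derivation.leibniz_pow, pderiv_X_of_ne h1]
      simp
  split_ifs with hj
  · subst hj
    unfold xm
    rw [← mul_prod_erase _ _ (mem_univ r), ← mul_prod_erase _ _ (mem_univ r), Derivation.leibniz,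
      h0 _ (Or.inl (by simp)), Derivation.leibniz_pow, pderiv_X_self]
    have : ∏ x ∈ univ.erase r, (X (x, j') : PR k ι) ^ (c - Pi.single r 1 : Fin k → ℕ) x =
        ∏ x ∈ univ.erase r, (X (x, j') : PR k ι) ^ c x :=
      prod_congr rfl fun x hx => by simp [Pi.single_eq_of_ne (ne_of_mem_erase hx)]
    rw [this]
    simp; ring
  · exact h0 _ (Or.inr hj)

/-- weighted polarized power sums -/
noncomputable def ps [Fintype ι] (s : ι → ℕ) (ex : B → Fin k → ℕ) (b : B) : PR k ι :=
  ∑ j, (s j : PR k ι) * xm j (ex b)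

omit [LinearOrder B] [Fintype B] in
lemma supD_ps [Fintype ι] (s : ι → ℕ) (ex : B → Fin k → ℕ) (b : B) :
    SupD (fun d => d = ex b) (ps s ex b) :=
  SupP.sum fun j _ => (supD_xm j _).natCast_mul _

omit [LinearOrder B] [Fintype B] in
lemma pderiv_ps [Fintype ι] [DecidableEq ι] (s : ι → ℕ) (ex : B → Fin k → ℕ) (b : B) (r : Fin k)
    (j : ι) : pderiv (r, j) (ps s ex b) =
      (s j : PR k ι) * ((ex b r : PR k ι) * xm j (ex b - Pi.single r 1)) := by
  unfold ps
  rw [map_sum, Finset.sum_eq_single j]
  · rw [Derivation.leibniz, pderiv_xm]; simp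
  · intro j' _ h; rw [Derivation.leibniz, pderiv_xm]; simp [h]
  · simp

lemma pderiv_dd (v : Fin k × ι) (p : B → PR k ι) (f : Finset B → PR k ι) (S : Finset B) :
    pderiv v (dd p f S) = dd (fun b => pderiv v (p b)) f S + dd p (fun T => pderiv v (f T)) S := by
  simp only [dd, map_sum, ← sum_add_distrib]
  refine sum_congr rfl fun b _ => ?_
  rw [Derivation.leibniz]
  have := io_map (pderiv v : Derivation ℂ (PR k ι) (PR k ι)).toLinearMap.toAddMonoidHom b f S
  simp only [LinearMap.toAddMonoidHom_coe, Derivation.coeFn_coe] at this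
  rw [this]; simp only [smul_eq_mul]; ring

/-- shift by the extra point -/
noncomputable def al : PR k ι →ₐ[ℂ] PR k (Option ι) :=
  aeval fun v => X (v.1, some v.2) + X (v.1, none)

/-- evaluate the extra point at column `j` -/
noncomputable def ev (j : ι) : PR k (Option ι) →ₐ[ℂ] PR k ι :=
  aeval fun v => v.2.elim (X (v.1, j)) fun j' => X (v.1, j') - X (v.1, j)

/-- expand in the extra point -/
noncomputable def EE : PR k (Option ι) →ₐ[ℂ] MvPolynomial (Fin k) (PR k ι) :=
  aeval fun v => v.2.elim (X v.1) fun j' => C (X (v.1, j')) - X v.1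

/-- merge the columns of `T` with the extra point -/
noncomputable def rho [DecidableEq ι] (T : Finset ι) : PR k (Option ι) →ₐ[ℂ] PR k (Option ι) :=
  aeval fun v => v.2.elim (X (v.1, none)) fun j =>
    if j ∈ T then 0 else X (v.1, some j) - X (v.1, none)

/-- section -/
noncomputable def th [DecidableEq ι] (T : Finset ι) : PR k (Option ι) →ₐ[ℂ] PR k (Option ι) :=
  aeval fun v => v.2.elim (X (v.1, none)) fun j =>
    if j ∈ T then X (v.1, some j) else X (v.1, some j) + X (v.1, none)

/-- the monomial uses column `j` -/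
def us (j : ι) (m : Fin k × Option ι →₀ ℕ) : Prop := ∃ r, m (r, some j) ≠ 0

lemma us_up (j : ι) : Up (us (k := k) j) := by
  rintro m m' ⟨r, h⟩
  exact ⟨r, by simp [h]⟩

lemma supP_X_us (r : Fin k) (j : ι) : SupP (us j) (X (r, some j) : PR k (Option ι)) :=
  SupP.monomial _ ⟨r, by simp⟩

lemma al_hom (r : Fin k) (j : ι) :
    SupD (fun d => d = Pi.single r 1) (al (X (r, j) : PR k ι)) := by
  simp only [al, aeval_X]; exact (supD_X _ _).add (supD_X _ _)

lemma ev_hom (j : ι) (r : Fin k) (o : Option ι) :
    SupD (fun d => d = Pi.single r 1) (ev j (X (r, o) : PR k (Option ι))) := by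
  simp only [ev, aeval_X]
  cases o with
  | none => exact supD_X _ _
  | some j' => exact (supD_X _ _).sub (supD_X _ _)

lemma rho_hom [DecidableEq ι] (T : Finset ι) (r : Fin k) (o : Option ι) :
    SupD (fun d => d = Pi.single r 1) (rho T (X (r, o) : PR k (Option ι))) := by
  simp only [rho, aeval_X]
  cases o with
  | none => exact supD_X _ _
  | some j' =>
    simp only [Option.elim]
    split_ifs
    · exact SupP.zero
    · exact (supD_X _ _).sub (supD_X _ _)

lemma th_hom [DecidableEq ι] (T : Finset ι) (r : Fin k) (o : Option ι) :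
    SupD (fun d => d = Pi.single r 1) (th T (X (r, o) : PR k (Option ι))) := by
  simp only [th, aeval_X]
  cases o with
  | none => exact supD_X _ _
  | some j' =>
    simp only [Option.elim]
    split_ifs
    · exact supD_X _ _
    · exact (supD_X _ _).add (supD_X _ _)

lemma ev_al (j : ι) (F : PR k ι) : ev j (al F) = F := by
  have : (ev j).comp al = AlgHom.id ℂ (PR k ι) := by
    ext1 v; simp [ev, al]
  exact DFunLike.congr_fun this F

lemma ev_kill (j : ι) {F : PR k (Option ι)} (h : SupP (us j) F) : ev j F = 0 :=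
  h.kill _ fun m ⟨r, hr⟩ => ⟨(r, some j), hr, by simp [ev]⟩

lemma EE_al (F : PR k ι) : EE (al F) = C F := by
  have : EE.comp al = (IsScalarTower.toAlgHom ℂ (PR k ι) (MvPolynomial (Fin k) (PR k ι))) := by
    ext1 v; simp [EE, al]
  exact DFunLike.congr_fun this F

lemma EE_xm (c : Fin k → ℕ) : EE (xm (none : Option ι) c) =
    monomial (Finsupp.equivFunOnFinite.symm c) (1 : PR k ι) := by
  rw [monomial_eq, Finsupp.prod_fintype _ _ (by simp)]
  simp [xm, EE]

lemma ev_eq (j : ι) (F : PR k (Option ι)) :
    ev j F = MvPolynomial.eval (fun r => X (r, j)) (EE F) := by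
  have : (ev (k := k) j).toRingHom =
      (MvPolynomial.eval (fun r => (X (r, j) : PR k ι))).comp
        (EE (k := k) (ι := ι)).toRingHom := by
    refine MvPolynomial.ringHom_ext (fun c => ?_) (fun v => ?_)
    · simp [ev, EE]
    · obtain ⟨r, o⟩ := v
      cases o <;> simp [ev, EE]
  exact DFunLike.congr_fun this F

lemma EE_deg {P : (Fin k → ℕ) → Prop} {F : PR k (Option ι)} (h : SupD P F) (c : Fin k →₀ ℕ) :
    SupD (fun d => P (d + ⇑c)) (coeff c (EE F)) := by
  classical
  rw [as_sum F, map_sum, coeff_sum]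
  refine SupP.sum fun m hm => ?_
  have := graded_monomial (rw1 k (Option ι))
    (fun n (x : MvPolynomial (Fin k) (PR k ι)) =>
      ∀ c : Fin k →₀ ℕ, SupD (fun d => d + ⇑c = n) (coeff c x)) ?_ ?_ EE ?_ m (coeff m F) c
  · exact this.mono fun m' hm' => by
      have h1 : md m' + ⇑c = md m := hm'
      have h2 : P (md m) := h m (mem_support_iff.1 hm)
      rw [← h1] at h2; exact h2
  · intro z c
    rw [IsScalarTower.algebraMap_apply ℂ (PR k ι), algebraMap_eq, coeff_C]
    split_ifs with h0
    · subst h0; exact (supD_C z).mono fun m hm => by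
        have h1 : md m = 0 := hm
        simp [h1]
    · exact SupP.zero
  · intro n n' x y hx hy c
    rw [coeff_mul]
    refine SupP.sum fun z hz => SupD.mul (P'' := fun d => d + ⇑c = n + n') (hx z.1) (hy z.2) ?_
    intro d d' h1 h2
    rw [← mem_antidiagonal.1 hz, ← h1, ← h2]
    funext i; simp; ring
  · rintro ⟨r, o⟩ c
    have hXr : SupD (fun d => d + ⇑c = rw1 k (Option ι) (r, o))
        (coeff c (X r : MvPolynomial (Fin k) (PR k ι))) := by
      rw [coeff_X]
      split_ifs with h0
      · subst h0
        have h1 : SupD (fun d => d = 0) (1 : PR k ι) := by simpa using supD_C (k := k) (ι := ι) 1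
        refine h1.mono fun m hm => ?_
        have h1 : md m = 0 := hm
        simp only [h1]; funext i; simp [rw1, Finsupp.single_apply, Pi.single_apply, eq_comm]
      · exact SupP.zero
    simp only [EE, aeval_X]
    cases o with
    | none => exact hXr
    | some j' =>
      simp only [Option.elim, coeff_sub]
      refine SupP.sub ?_ hXr
      rw [coeff_C]
      split_ifs with h0
      · subst h0; exact (supD_X r j').mono fun m hm => by
          have h1 : md m = Pi.single r 1 := hm
          simp [h1, rw1]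
      · exact SupP.zero

lemma al_xm_cong (j : ι) (c : Fin k → ℕ) :
    SupP (us j) (al (xm j c) - xm (none : Option ι) c : PR k (Option ι)) := by
  classical
  have h := SupP.cong (us_up j) (aeval fun v : Fin k × Option ι =>
    (v.2.elim (X (v.1, some j) + X (v.1, none)) fun j' => X (v.1, some j') : PR k (Option ι)))
    (by
      rintro ⟨r, o⟩
      cases o with
      | none => simpa using supP_X_us r j
      | some j' => simpa using SupP.zero) (xm none c)
  simpa [xm, al] using h

lemma rho_kill [DecidableEq ι] (T : Finset ι) {F : PR k (Option ι)}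
    (h : SupP (fun m => ∃ j ∈ T, us j m) F) : rho T F = 0 :=
  h.kill _ fun m ⟨j, hj, r, hr⟩ => ⟨(r, some j), hr, by simp [rho, hj]⟩

lemma up_ex (T : Finset ι) : Up (fun m : Fin k × Option ι →₀ ℕ => ∃ j ∈ T, us j m) := by
  rintro m m' ⟨j, hj, h⟩
  exact ⟨j, hj, us_up j _ _ h⟩

lemma th_rho [DecidableEq ι] (T : Finset ι) (F : PR k (Option ι)) :
    SupP (fun m => ∃ j ∈ T, us j m) (th T (rho T F) - F) := by
  refine SupP.cong (up_ex T) ((th T).comp (rho T)) ?_ F
  rintro ⟨r, o⟩
  cases o with
  | none => simpa [th, rho] using SupP.zero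
  | some j =>
    by_cases hj : j ∈ T
    · simpa [th, rho, hj] using ((supP_X_us r j).mono fun m h => ⟨j, hj, h⟩).neg
    · simpa [th, rho, hj] using SupP.zero

/-- merged weights -/
def sT [DecidableEq ι] (s : ι → ℕ) (T : Finset ι) : Option ι → ℕ :=
  fun o => o.elim (∑ j ∈ T, s j) fun j => if j ∈ T then 0 else s j

omit [LinearOrder B] [Fintype B] in
lemma rho_ps [Fintype ι] [DecidableEq ι] (s : ι → ℕ) (ex : B → Fin k → ℕ) (T : Finset ι) (b : B) :
    rho T (al (ps s ex b)) = ps (sT s T) ex b := by
  have h1 : ∀ j, rho T (al (xm j (ex b))) =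
      if j ∈ T then xm none (ex b) else xm (some j) (ex b) := by
    intro j
    split_ifs with hj <;> simp [xm, rho, al, hj]
  simp only [ps, map_sum, map_mul, map_natCast, h1, Fintype.sum_option, sT, Option.elim]
  rw [Nat.cast_sum, sum_mul, ← Finset.sum_ite_mem_eq T, ← sum_add_distrib]
  refine sum_congr rfl fun j _ => ?_
  split_ifs <;> simp

lemma card_sT [Fintype ι] [DecidableEq ι] (s : ι → ℕ) (T : Finset ι) (hne : T.Nonempty)
    (hT : T ⊆ univ.filter fun j => s j ≠ 0) :
    (univ.filter fun o => sT s T o ≠ 0).card + T.card =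
      (univ.filter fun j => s j ≠ 0).card + 1 := by
  have h1 : (univ.filter fun o => sT s T o ≠ 0) =
      insertNone ((univ.filter fun j => s j ≠ 0) \ T) := by
    ext o
    cases o with
    | none =>
      obtain ⟨j, hj⟩ := hne
      have := (mem_filter.1 (hT hj)).2
      simp only [mem_filter, mem_univ, true_and, sT, Option.elim, none_mem_insertNone, iff_true]
      exact (Finset.sum_pos' (fun _ _ => Nat.zero_le _) ⟨j, hj, Nat.pos_of_ne_zero this⟩).ne'
    | some j => by_cases hj : j ∈ T <;> simp [sT, hj]
  rw [h1, card_insertNone, ← card_sdiff_add_card_eq_card hT]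
  ring

end Pool.Agent.H291Z.Kos
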