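import Pool.Agent.H291Z.KosD

set_option autoImplicit false

open Finset MvPolynomial

namespace Pool.Agent.H291Z.Kos

variable {k : ℕ} {ι : Type} {B : Type} [LinearOrder B] [Fintype B]

/-- exactness of the Koszul complex at one spot -/
def Ex (ex : B → Fin k → ℕ) (p : B → PR k ι) (q : ℕ) (a : Fin k → ℕ) : Prop :=
  ∀ f, CH ex q a f → (∀ S, dd p f S = 0) → ∃ h, CH ex (q + 1) a h ∧ ∀ S, f S = dd p h S

lemma van_T [Fintype ι] [DecidableEq ι] (ex : B → Fin k → ℕ) (s : ι → ℕ) (T : Finset ι) (q : ℕ)
    (a : Fin k → ℕ) (h : Ex ex (ps (sT s T) ex) q a) :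
    Van ex (fun b => al (ps s ex b)) (fun m => ∃ j ∈ T, us j m) q a := by
  intro f hf hd
  obtain ⟨u, hu, hu'⟩ := h (fun S => rho T (f S)) (hf.map _ (rho_hom T)) (fun S => by
    have := dd_map (rho T).toRingHom (fun b => al (ps s ex b)) f S
    simp only [AlgHom.toRingHom_eq_coe, RingHom.coe_coe, rho_ps] at this
    rw [this]; exact rho_kill T (hd S))
  refine ⟨fun S => th T (u S), hu.map _ (th_hom T), fun S => ?_⟩
  have e1 := dd_map (th T).toRingHom (ps (sT s T) ex) u S
  simp only [AlgHom.toRingHom_eq_coe, RingHom.coe_coe, ← hu'] at e1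
  have e2 : f S - dd (fun b => al (ps s ex b)) (fun S => th T (u S)) S =
      -(th T (rho T (f S)) - f S) + ∑ b, io b (fun S => th T (u S)) S *
        (th T (rho T (al (ps s ex b))) - al (ps s ex b)) := by
    rw [← e1]
    simp only [dd, rho_ps, mul_sub, sum_sub_distrib]
    simp only [mul_comm]
    ring
  rw [e2]
  exact (th_rho T _).neg.add (SupP.sum fun b _ => SupP.mul_up (up_ex T) _ (th_rho T _))

omit [LinearOrder B] [Fintype B] in
lemma card_le_wt {ex : B → Fin k → ℕ} (hne : ∀ b, ex b ≠ 0) (S : Finset B) :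
    S.card ≤ ∑ i, (∑ b ∈ S, ex b) i := by
  simp only [Finset.sum_apply]
  rw [sum_comm, card_eq_sum_ones]
  refine sum_le_sum fun b _ => ?_
  obtain ⟨i, hi⟩ := Function.ne_iff.1 (hne b)
  exact (Nat.pos_of_ne_zero hi).trans_le
    (single_le_sum (f := fun i => ex b i) (fun _ _ => Nat.zero_le _) (mem_univ i))

lemma card_le_md [Fintype ι] (J : Finset ι) (m : Fin k × Option ι →₀ ℕ) (h : ∀ j ∈ J, us j m) :
    J.card ≤ ∑ i, md m i := by
  simp only [md_apply]
  rw [sum_comm, Fintype.sum_option, card_eq_sum_ones]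
  refine le_add_left (le_trans (sum_le_sum fun j hj => ?_)
    (sum_le_sum_of_subset (subset_univ J)))
  obtain ⟨r, hr⟩ := h j hj
  exact (Nat.pos_of_ne_zero hr).trans_le
    (single_le_sum (f := fun r => m (r, some j)) (fun _ _ => Nat.zero_le _) (mem_univ r))

/-- coefficient of a power of the extra point -/
noncomputable def cf (c : Fin k → ℕ) (F : PR k (Option ι)) : PR k ι :=
  coeff (Finsupp.equivFunOnFinite.symm c) (EE F)

lemma cf_al_mul (c : Fin k → ℕ) (v : PR k ι) (F : PR k (Option ι)) :
    cf c (al v * F) = v * cf c F := by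
  simp [cf, EE_al]

lemma cf_dd (c : Fin k → ℕ) (p : B → PR k ι) (G : Finset B → PR k (Option ι)) (S : Finset B) :
    dd p (fun T => cf c (G T)) S = cf c (dd (fun b => al (p b)) G S) := by
  let φ : PR k (Option ι) →+ PR k ι :=
    { toFun := cf c, map_zero' := by simp [cf], map_add' := by intro x y; simp [cf] }
  have h1 : cf c (dd (fun b => al (p b)) G S) = ∑ b, cf c (al (p b) * io b G S) :=
    map_sum φ _ _
  rw [h1, dd]
  refine sum_congr rfl fun b _ => ?_
  rw [cf_al_mul]
  exact congrArg _ (io_map φ b G S)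

lemma cf_deg {P : (Fin k → ℕ) → Prop} {F : PR k (Option ι)} (h : SupD P F) (c : Fin k → ℕ) :
    SupD (fun d => P (d + c)) (cf c F) := EE_deg h _

lemma ev_expand {ex : B → Fin k → ℕ} (hinj : Function.Injective ex) {D : ℕ}
    (hD : ∀ c : Fin k → ℕ, c ≠ 0 → (∀ i, c i ≤ D) → ∃ b, ex b = c) (r : Fin k) (j : ι)
    {F : PR k (Option ι)} (hF : SupD (fun d => ∀ i, (d + Pi.single r 1 : Fin k → ℕ) i ≤ D) F) :
    X (r, j) * ev j F = ∑ b ∈ univ.filter (fun b => ex b r ≠ 0),
      xm j (ex b) * cf (ex b - Pi.single r 1) F := by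
  classical
  set ψ : B → Fin k →₀ ℕ := fun b => Finsupp.equivFunOnFinite.symm (ex b - Pi.single r 1) with hψ
  have hsub : (EE F).support ⊆ (univ.filter (fun b => ex b r ≠ 0)).image ψ := by
    intro c hc
    have h1 := EE_deg hF c
    obtain ⟨m, hm⟩ := ne_zero_iff.1 (mem_support_iff.1 hc)
    have h2 := h1 m hm
    obtain ⟨b, hb⟩ := hD (⇑c + Pi.single r 1)
      (fun h => by have := congrFun h r; simp at this)
      (fun i => by have := h2 i; simp only [Pi.add_apply] at this ⊢; omega)
    refine mem_image.2 ⟨b, by simp [hb], ?_⟩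
    ext i; simp [hψ, hb]
  rw [ev_eq, eval_eq', sum_subset hsub (fun c _ hc => by simp [notMem_support_iff.1 hc]),
    sum_image, mul_sum]
  · refine sum_congr rfl fun b hb => ?_
    have hb' := (mem_filter.1 hb).2
    conv_rhs => rw [← sub_add_single hb', xm_succ, add_tsub_cancel_right]
    simp only [cf, xm, hψ, Finsupp.coe_equivFunOnFinite_symm]
    ring
  · intro b hb b' hb' h
    apply hinj
    have h1 := (mem_filter.1 (mem_coe.1 hb)).2
    have h2 := (mem_filter.1 (mem_coe.1 hb')).2
    rw [← sub_add_single h1, ← sub_add_single h2, Finsupp.equivFunOnFinite.symm.injective h]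

lemma cf_g {ex : B → Fin k → ℕ} (hinj : Function.Injective ex) (r : Fin k) (v : B → PR k ι)
    (b : B) (hb : ex b r ≠ 0) :
    cf (ex b - Pi.single r 1) (∑ b', al (v b') * ((ex b' r : PR k (Option ι)) *
      xm none (ex b' - Pi.single r 1))) = (ex b r : PR k ι) * v b := by
  classical
  simp only [cf, map_sum, map_mul, map_natCast, EE_al, EE_xm, coeff_sum, coeff_C_mul]
  have hn : ∀ (n : ℕ) (c c' : Fin k →₀ ℕ), coeff c ((n : MvPolynomial (Fin k) (PR k ι)) *
      monomial c' 1) = if c' = c then (n : PR k ι) else 0 := by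
    intro n c c'
    rw [← map_natCast (C : PR k ι →+* MvPolynomial (Fin k) (PR k ι)), coeff_C_mul, coeff_monomial]
    split_ifs <;> simp
  simp only [hn]
  rw [Finset.sum_eq_single b]
  · simp [mul_comm]
  · intro b' _ hb'
    split_ifs with h
    · by_cases h0 : ex b' r = 0
      · simp [h0]
      · exfalso; apply hb'; apply hinj
        rw [← sub_add_single h0, ← sub_add_single hb, Finsupp.equivFunOnFinite.symm.injective h]
    · simp
  · simp

theorem koszul_main {ex : B → Fin k → ℕ} (hinj : Function.Injective ex) (hne : ∀ b, ex b ≠ 0)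
    {D : ℕ} (hD : ∀ c : Fin k → ℕ, c ≠ 0 → (∀ i, c i ≤ D) → ∃ b, ex b = c) (e : ℕ) :
    ∀ (ι : Type) [Fintype ι] [DecidableEq ι] (s : ι → ℕ) (q : ℕ) (a : Fin k → ℕ),
      ∑ i, a i = e → (∀ i, a i ≤ D) → 1 ≤ q →
      e + 1 ≤ (univ.filter fun j => s j ≠ 0).card + q → Ex ex (ps s ex) q a := by
  induction e with
  | zero =>
    intro ι _ _ s q a ha _ hq _ f hf _
    refine ⟨fun _ => 0, CH.zero, fun S => ?_⟩
    rw [dd_zero]
    refine (hf S).eq_zero fun m ⟨h1, h2⟩ => ?_
    have h3 := card_le_wt hne S
    rw [← h2] at ha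
    simp only [Pi.add_apply, sum_add_distrib] at ha
    omega
  | succ e ih =>
    intro ι _ _ s q a ha haD hq he f hf hd
    obtain ⟨r, hr⟩ : ∃ r, a r ≠ 0 := by
      by_contra h; push Not at h; simp [h] at ha
    obtain ⟨q, rfl⟩ : ∃ q', q = q' + 1 := ⟨q - 1, by omega⟩
    set a' := a - Pi.single r 1 with ha'
    have haa : a' + Pi.single r 1 = a := sub_add_single hr
    have ha'e : ∑ i, a' i = e := by
      rw [← haa] at ha
      simp only [Pi.add_apply, sum_add_distrib, Finset.sum_pi_single', mem_univ, if_true] at ha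
      omega
    have ha'D : ∀ i, a' i ≤ D := fun i => (Nat.sub_le _ _).trans (haD i)
    set J := univ.filter fun j => s j ≠ 0 with hJ
    set p := ps s ex with hp
    set p' : B → PR k (Option ι) := fun b => al (p b) with hp'
    have hpd : ∀ b, SupD (fun d => d = ex b) (p b) := supD_ps s ex
    have hp'd : ∀ b, SupD (fun d => d = ex b) (p' b) := fun b => SupD.map al al_hom (hpd b)
    set df : ι → Finset B → PR k ι := fun j S => pderiv (r, j) (f S) with hdf
    have hdfc : ∀ j, CH ex (q + 1) a' (df j) := fun j S =>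
      ((hf S).pderiv r j).mono fun m hm => ⟨hm.1, by
        have := hm.2
        rw [← haa, add_right_comm] at this
        exact add_right_cancel this⟩
    have hddf : ∀ j S, dd p (df j) S = -((s j : PR k ι) * ∑ b, io b f S *
        ((ex b r : PR k ι) * xm j (ex b - Pi.single r 1))) := by
      intro j S
      have h1 := pderiv_dd (r, j) p f S
      rw [hd S, map_zero] at h1
      rw [eq_neg_of_add_eq_zero_right h1.symm, dd, mul_sum]
      congr 1
      refine sum_congr rfl fun b _ => ?_
      rw [hp, pderiv_ps]; ring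
    set g : Finset B → PR k (Option ι) := fun S => ∑ b, al (io b f S) *
      ((ex b r : PR k (Option ι)) * xm none (ex b - Pi.single r 1)) with hg
    have hgc : CH ex q a' g := fun S => SupP.sum fun b _ => by
      by_cases h0 : ex b r = 0
      · simp [h0, SupP.zero]
      · refine SupD.mul (P'' := fun d => S.card = q ∧ d + ∑ b ∈ S, ex b = a')
          (P' := fun d => d = ex b - Pi.single r 1) (SupD.map al al_hom (hf.io b S)) ((supD_xm none _).natCast_mul _) ?_
        rintro d d' ⟨h1, h2⟩ rfl
        refine ⟨h1, ?_⟩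
        have h3 := sub_add_single h0
        apply add_right_cancel (b := Pi.single r 1)
        rw [haa, ← h2]
        generalize ex b - Pi.single r 1 = c at h3 ⊢
        rw [← h3]; abel
    set φ : ι → Finset B → PR k (Option ι) := fun j S => C (-(s j : ℂ)⁻¹) * al (df j S) with hφ
    have hφc : ∀ j ∈ J, CH ex (q + 1) a' (φ j) := fun j _ =>
      ((hdfc j).map al al_hom).C_mul _
    have hCs : ∀ j ∈ J, ∀ ι' : Type, (C (-(s j : ℂ)⁻¹) : PR k ι') * (s j : PR k ι') = -1 := by
      intro j hj ι'
      have h0 : (s j : ℂ) ≠ 0 := Nat.cast_ne_zero.2 (mem_filter.1 hj).2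
      rw [← map_natCast (C : ℂ →+* PR k ι'), ← map_mul, neg_mul, inv_mul_cancel₀ h0]; simp
    have hgφ : ∀ j ∈ J, ∀ S, SupP (us j) (g S - dd p' (φ j) S) := by
      intro j hj S
      have h1 := dd_map (al (k := k) (ι := ι)).toRingHom p (df j) S
      simp only [AlgHom.toRingHom_eq_coe, RingHom.coe_coe] at h1
      have h2 : g S - dd p' (φ j) S = -∑ b, (al (io b f S) * (ex b r : PR k (Option ι))) *
          (al (xm j (ex b - Pi.single r 1)) - xm none (ex b - Pi.single r 1)) := by
        simp only [hφ]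
        rw [dd_mul, h1, hddf, map_neg al, map_mul, map_natCast, mul_neg, ← mul_assoc, hCs j hj]
        simp only [hg, map_sum, map_mul, map_natCast, mul_sub, sum_sub_distrib, mul_assoc]
        ring
      rw [h2]
      exact (SupP.sum fun b _ => SupP.mul_up (us_up j) _ (al_xm_cong j _)).neg
    have HV : ∀ T ⊆ J, ∀ q', T.Nonempty → q + 1 + T.card ≤ q' + 2 → q + 1 ≤ q' →
        Van ex p' (fun m => ∃ j ∈ T, us j m) q' a' := by
      intro T hT q' hTn h1 h2
      apply van_T
      apply ih (Option ι) (sT s T) q' a' ha'e ha'D (by omega)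
      have := card_sT s T hTn hT
      rw [← hJ] at this
      omega
    obtain ⟨G, hG, hG1, hG2⟩ := glue hp'd us us_up J HV g φ hφc hgφ J subset_rfl
    have hGg : ∀ S, dd p' G S = g S := by
      intro S
      refine (sub_eq_zero.1 (((hG1 S).and ((hgc.sub (CH.dd hp'd hG)) S)).eq_zero ?_)).symm
      rintro m ⟨h1, h2, h3⟩
      have h4 := card_le_wt hne S
      have h5 := card_le_md J m h1
      rw [← h3] at ha'e
      simp only [Pi.add_apply, sum_add_distrib] at ha'e
      omega
    have hu : ∀ j, ∃ u, CH ex (q + 1 + 1) a' u ∧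
        ∀ S, df j S = -((s j : PR k ι) * ev j (G S)) + dd p u S := by
      intro j
      by_cases hj : j ∈ J
      · obtain ⟨w, hw, hw'⟩ := hG2 j hj
        refine ⟨fun S => C (-(s j : ℂ)) * ev j (w S), (hw.map _ (ev_hom j)).C_mul _, fun S => ?_⟩
        have h1 := ev_kill j (hw' S)
        have h2 := dd_map (ev (k := k) j).toRingHom p' w S
        simp only [AlgHom.toRingHom_eq_coe, RingHom.coe_coe, hp', ev_al] at h2
        have h3 : ev j (φ j S) = C (-(s j : ℂ)⁻¹) * df j S := by
          simp only [hφ]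
          rw [map_mul, ev_al]; congr 1
          exact (ev j).commutes _
        rw [map_sub, map_sub, h3, ← h2] at h1
        rw [dd_mul, map_neg, map_natCast]
        have h4 := hCs j hj ι
        linear_combination (-(s j : PR k ι)) * h1 + df j S * h4
      · have h0 : s j = 0 := by simpa [hJ] using hj
        obtain ⟨u, hu, hu'⟩ := ih ι s (q + 1) a' ha'e ha'D hq (by rw [← hJ]; omega) (df j) (hdfc j)
          (fun S => by rw [hddf, h0]; simp)
        exact ⟨u, hu, fun S => by rw [h0, hu']; simp [hp]⟩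
    choose u hu hu' using hu
    set Br := univ.filter (fun b => ex b r ≠ 0) with hBr
    set Gh : Finset B → PR k ι := fun S =>
      ∑ b ∈ Br, ep b (fun T => cf (ex b - Pi.single r 1) (G T)) S with hGh
    have hGhc : CH ex (q + 1 + 1) a Gh := fun S => SupP.sum fun b hb => SupP.ep fun hbS =>
      (cf_deg (hG (S.erase b)) _).mono fun m hm => by
        obtain ⟨h1, h2⟩ := hm
        have h3 := card_erase_add_one hbS
        refine ⟨by omega, ?_⟩
        have h4 := sub_add_single (mem_filter.1 hb).2
        rw [← haa, ← h2, ← add_sum_erase _ _ hbS]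
        generalize ex b - Pi.single r 1 = c at h4 ⊢
        rw [← h4]; abel
    have hdGh : ∀ S, dd p Gh S = ∑ j, (s j : PR k ι) * (X (r, j) * ev j (G S)) -
        ((∑ b ∈ S, ex b) r : ℕ) * f S := by
      intro S
      simp only [hGh]
      rw [dd_sum]
      simp only [dd_ep, sum_sub_distrib]
      congr 1
      · have hb : SupD (fun d => ∀ i, (d + Pi.single r 1 : Fin k → ℕ) i ≤ D) (G S) :=
          (hG S).mono fun m hm i => by
            have h1 := congrFun hm.2 i
            have h2 := congrFun haa i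
            have h3 := haD i
            simp only [Pi.add_apply] at h1 h2 ⊢
            omega
        simp only [ev_expand hinj hD r _ hb, mul_sum, hp, ps, sum_mul]
        rw [sum_comm]
        exact sum_congr rfl fun j _ => sum_congr rfl fun b _ => by ring
      · have h1 : ∀ b ∈ Br, ep b (dd p fun T => cf (ex b - Pi.single r 1) (G T)) S =
            if b ∈ S then (ex b r : PR k ι) * f S else 0 := by
          intro b hb
          have : (dd p fun T => cf (ex b - Pi.single r 1) (G T)) =
              fun T => (ex b r : PR k ι) * io b f T := by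
            funext T
            rw [cf_dd, hGg]
            exact cf_g hinj r _ b (mem_filter.1 hb).2
          rw [this, ep_mul, ep_io_self]
          split_ifs <;> simp
        rw [sum_congr rfl h1, Finset.sum_apply, Nat.cast_sum, sum_mul, ← Finset.sum_ite_mem_eq S,
          hBr, sum_filter]
        refine sum_congr rfl fun b _ => ?_
        by_cases h0 : ex b r = 0 <;> simp [h0]
    have har : (C ((a r : ℂ)⁻¹) : PR k ι) * (a r : PR k ι) = 1 := by
      have h0 : (a r : ℂ) ≠ 0 := Nat.cast_ne_zero.2 hr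
      rw [← map_natCast (C : ℂ →+* PR k ι), ← map_mul, inv_mul_cancel₀ h0]; simp
    have hxu : CH ex (q + 1 + 1) a (fun S => ∑ j, X (r, j) * u j S) := fun S =>
      SupP.sum fun j _ => SupD.mul
        (P'' := fun d => S.card = q + 1 + 1 ∧ d + ∑ b ∈ S, ex b = a) (supD_X r j) (hu j S)
        (by rintro d d' rfl ⟨h1, h2⟩; exact ⟨h1, by rw [← haa, ← h2]; abel⟩)
    refine ⟨fun S => C ((a r : ℂ)⁻¹) * (∑ j, X (r, j) * u j S - Gh S), (hxu.sub hGhc).C_mul _,
      fun S => ?_⟩
    have h1 := euler_row (F := f S) r ((∑ b ∈ S, ex b) r) (a r)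
      ((hf S).mono fun m hm => congrFun hm.2 r)
    have h2 : ∑ j, X (r, j) * pderiv (r, j) (f S) =
        -∑ j, (s j : PR k ι) * (X (r, j) * ev j (G S)) + ∑ j, X (r, j) * dd p (u j) S := by
      rw [← sum_neg_distrib, ← sum_add_distrib]
      refine sum_congr rfl fun j _ => ?_
      have := hu' j S
      simp only [hdf] at this
      rw [this]; ring
    rw [dd_mul, dd_sub, dd_sum, hdGh]
    simp only [dd_mul]
    linear_combination (-f S) * har - C ((a r : ℂ)⁻¹) * (h1 - h2)

end Pool.Agent.H291Z.Kos
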