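import Pool.Agent.H291Z.KosE

set_option autoImplicit false

open Finset MvPolynomial

namespace Pool.Agent.H291Z.Kos

variable {k n : ℕ} {B : Type} [LinearOrder B] [Fintype B]

/-- column permutation -/
noncomputable def act (σ : Equiv.Perm (Fin n)) : PR k (Fin n) →ₐ[ℂ] PR k (Fin n) :=
  rename fun x : Fin k × Fin n => (x.1, σ x.2)

lemma act_act (σ τ : Equiv.Perm (Fin n)) (F : PR k (Fin n)) :
    act σ (act τ F) = act (σ * τ) F := by
  simp only [act, rename_rename]; rfl

lemma act_hom (σ : Equiv.Perm (Fin n)) (r : Fin k) (j : Fin n) :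
    SupD (fun d => d = Pi.single r 1) (act σ (X (r, j) : PR k (Fin n))) := by
  simp only [act, rename_X]; exact supD_X _ _

lemma act_xm (σ : Equiv.Perm (Fin n)) (j : Fin n) (c : Fin k → ℕ) :
    act σ (xm j c) = xm (σ j) c := by
  simp [act, xm]

lemma act_C (σ : Equiv.Perm (Fin n)) (c : ℂ) : act σ (C c : PR k (Fin n)) = C c := by
  simp [act]

/-- fixed by a subgroup -/
def FixH (H : Subgroup (Equiv.Perm (Fin n))) (F : PR k (Fin n)) : Prop := ∀ σ ∈ H, act σ F = F

variable {H : Subgroup (Equiv.Perm (Fin n))}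

lemma FixH.zero : FixH H (0 : PR k (Fin n)) := fun _ _ => map_zero _
lemma FixH.C (c : ℂ) : FixH H (C c : PR k (Fin n)) := fun σ _ => act_C σ c
lemma FixH.add {F G : PR k (Fin n)} (h : FixH H F) (h' : FixH H G) : FixH H (F + G) :=
  fun σ hσ => by rw [map_add, h σ hσ, h' σ hσ]
lemma FixH.sub {F G : PR k (Fin n)} (h : FixH H F) (h' : FixH H G) : FixH H (F - G) :=
  fun σ hσ => by rw [map_sub, h σ hσ, h' σ hσ]
lemma FixH.mul {F G : PR k (Fin n)} (h : FixH H F) (h' : FixH H G) : FixH H (F * G) :=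
  fun σ hσ => by rw [map_mul, h σ hσ, h' σ hσ]
lemma FixH.sum {κ : Type} {t : Finset κ} {f : κ → PR k (Fin n)} (h : ∀ i ∈ t, FixH H (f i)) :
    FixH H (∑ i ∈ t, f i) :=
  Finset.sum_induction f (FixH H) (fun _ _ => FixH.add) FixH.zero h
lemma FixH.of_top {F : PR k (Fin n)} (h : FixH ⊤ F) : FixH H F := fun σ _ => h σ trivial

/-- plain polarized power sums -/
noncomputable abbrev p1 (n : ℕ) (ex : B → Fin k → ℕ) : B → PR k (Fin n) := ps (fun _ => 1) ex

omit [LinearOrder B] [Fintype B] in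
lemma p1_eq (ex : B → Fin k → ℕ) (b : B) : p1 n ex b = ∑ j, xm j (ex b) := by simp [p1, ps]

omit [LinearOrder B] [Fintype B] in
lemma fix_p1 (ex : B → Fin k → ℕ) (b : B) : FixH H (p1 n ex b) := by
  intro σ _
  simp only [p1_eq, map_sum, act_xm]
  exact Equiv.sum_comp σ fun j => xm j (ex b)

lemma FixH.dd {p : B → PR k (Fin n)} (hp : ∀ b, FixH H (p b)) {f : Finset B → PR k (Fin n)}
    (h : ∀ S, FixH H (f S)) (S : Finset B) : FixH H (dd p f S) := by
  intro σ hσ
  have := dd_map (act (k := k) σ).toRingHom p f S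
  simp only [AlgHom.toRingHom_eq_coe, RingHom.coe_coe, hp _ σ hσ, h _ σ hσ] at this
  exact this.symm

open Classical in
/-- averaging over a subgroup -/
noncomputable def av (H : Subgroup (Equiv.Perm (Fin n))) (F : PR k (Fin n)) : PR k (Fin n) :=
  C (((univ.filter (· ∈ H)).card : ℂ)⁻¹) * ∑ σ ∈ univ.filter (· ∈ H), act σ F

lemma av_act {τ : Equiv.Perm (Fin n)} (hτ : τ ∈ H) (F : PR k (Fin n)) :
    av H (act τ F) = av H F := by
  classical
  unfold av
  congr 1
  simp only [act_act]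
  refine sum_bijective (· * τ) (Group.mulRight_bijective τ) (fun σ => ?_) (fun _ _ => rfl)
  simp [H.mul_mem_cancel_right hτ]

lemma fix_av (F : PR k (Fin n)) : FixH H (av H F) := by
  classical
  intro τ hτ
  unfold av
  rw [map_mul, act_C, map_sum]
  congr 1
  simp only [act_act]
  refine sum_bijective (τ * ·) (Group.mulLeft_bijective τ) (fun σ => ?_) (fun _ _ => rfl)
  simp [H.mul_mem_cancel_left hτ]

lemma av_mul {g : PR k (Fin n)} (hg : FixH H g) (F : PR k (Fin n)) :
    av H (g * F) = g * av H F := by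
  classical
  unfold av
  have : ∑ σ ∈ univ.filter (· ∈ H), act σ (g * F) = g * ∑ σ ∈ univ.filter (· ∈ H), act σ F := by
    rw [mul_sum]
    exact sum_congr rfl fun σ hσ => by rw [map_mul, hg σ (mem_filter.1 hσ).2]
  rw [this, mul_left_comm]

lemma av_of_fix {g : PR k (Fin n)} (hg : FixH H g) : av H g = g := by
  classical
  unfold av
  rw [sum_congr rfl fun σ hσ => hg σ (mem_filter.1 hσ).2, sum_const, nsmul_eq_mul, ← mul_assoc,
    ← map_natCast (C : ℂ →+* PR k (Fin n)), ← map_mul, inv_mul_cancel₀, map_one, one_mul]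
  exact Nat.cast_ne_zero.2 (card_pos.2 ⟨1, by simp⟩).ne'

lemma av_sum {κ : Type} (t : Finset κ) (f : κ → PR k (Fin n)) :
    av H (∑ i ∈ t, f i) = ∑ i ∈ t, av H (f i) := by
  unfold av
  simp only [map_sum]
  rw [sum_comm, mul_sum]

lemma SupD.av {P : (Fin k → ℕ) → Prop} {F : PR k (Fin n)} (h : SupD P F) : SupD P (av H F) :=
  (SupP.sum fun σ _ => SupD.map _ (act_hom σ) h).C_mul _

lemma dd_av {p : B → PR k (Fin n)} (hp : ∀ b, FixH H (p b)) (f : Finset B → PR k (Fin n))
    (S : Finset B) : dd p (fun T => av H (f T)) S = av H (dd p f S) := by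
  let φ : PR k (Fin n) →+ PR k (Fin n) :=
    { toFun := av H, map_zero' := av_of_fix FixH.zero,
      map_add' := by intro x y; simp [av, mul_add, sum_add_distrib] }
  rw [dd, dd, av_sum]
  refine sum_congr rfl fun b _ => ?_
  rw [av_mul (hp b)]
  exact congrArg _ (io_map φ b f S)

/-- monomial with prescribed columns -/
noncomputable def mon (α : Fin n → Fin k → ℕ) : PR k (Fin n) := ∏ j, xm j (α j)

lemma mon_add_single (α : Fin n → Fin k → ℕ) (j : Fin n) (c : Fin k → ℕ) :
    mon (α + Pi.single j c) = xm j c * mon α := by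
  have h1 : ∀ (j : Fin n) (c c' : Fin k → ℕ), xm j (c + c') = xm j c * xm j c' := by
    intro j c c'; simp [xm, pow_add, prod_mul_distrib]
  simp only [mon, Pi.add_apply, h1, prod_mul_distrib]
  rw [mul_comm, Finset.prod_eq_single j]
  · simp
  · intro j' _ h; simp [Pi.single_eq_of_ne h, xm]
  · simp

lemma act_mon (τ : Equiv.Perm (Fin n)) (α : Fin n → Fin k → ℕ) :
    act τ (mon (α ∘ τ)) = mon α := by
  simp only [mon, map_prod, act_xm, Function.comp]
  exact Equiv.prod_comp τ fun j => xm j (α j)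

lemma monomial_eq_mon (m : Fin k × Fin n →₀ ℕ) (c : ℂ) :
    monomial m c = C c * mon (fun j r => m (r, j)) := by
  rw [monomial_eq, Finsupp.prod_fintype _ _ (by simp), Fintype.prod_prod_type, prod_comm]
  rfl

lemma md_eq (m : Fin k × Fin n →₀ ℕ) : md m = ∑ j, fun r => m (r, j) := by
  funext r; rw [md_apply, Finset.sum_apply]

lemma supD_mon (α : Fin n → Fin k → ℕ) : SupD (fun d => d = ∑ j, α j) (mon α) := by
  have := monomial_eq_mon (Finsupp.equivFunOnFinite.symm fun x : Fin k × Fin n => α x.2 x.1) 1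
  simp only [map_one, one_mul, Finsupp.coe_equivFunOnFinite_symm] at this
  rw [← this]
  exact SupP.monomial _ (by rw [md_eq]; rfl)

/-- decomposable through the power sums with `H`-fixed homogeneous coefficients -/
def Dec (ex : B → Fin k → ℕ) (H : Subgroup (Equiv.Perm (Fin n))) (a : Fin k → ℕ)
    (F : PR k (Fin n)) : Prop :=
  ∃ g : B → PR k (Fin n), (∀ b, FixH H (g b) ∧ SupD (fun d => d + ex b = a) (g b)) ∧
    F = ∑ b, p1 n ex b * g b

variable {ex : B → Fin k → ℕ} {a : Fin k → ℕ}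

omit [LinearOrder B] in
lemma Dec.zero : Dec ex H a (0 : PR k (Fin n)) :=
  ⟨fun _ => 0, fun _ => ⟨FixH.zero, SupP.zero⟩, by simp⟩

omit [LinearOrder B] in
lemma Dec.add {F G : PR k (Fin n)} (h : Dec ex H a F) (h' : Dec ex H a G) : Dec ex H a (F + G) := by
  obtain ⟨g, hg, rfl⟩ := h
  obtain ⟨g', hg', rfl⟩ := h'
  exact ⟨fun b => g b + g' b, fun b => ⟨(hg b).1.add (hg' b).1, (hg b).2.add (hg' b).2⟩,
    by simp [mul_add, sum_add_distrib]⟩

omit [LinearOrder B] in
lemma Dec.C_mul {F : PR k (Fin n)} (h : Dec ex H a F) (c : ℂ) : Dec ex H a (C c * F) := by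
  obtain ⟨g, hg, rfl⟩ := h
  refine ⟨fun b => C c * g b, fun b => ⟨(FixH.C c).mul (hg b).1, (hg b).2.C_mul c⟩, ?_⟩
  rw [mul_sum]; exact sum_congr rfl fun _ _ => by ring

omit [LinearOrder B] in
lemma Dec.sum {κ : Type} {t : Finset κ} {f : κ → PR k (Fin n)} (h : ∀ i ∈ t, Dec ex H a (f i)) :
    Dec ex H a (∑ i ∈ t, f i) :=
  Finset.sum_induction f (Dec ex H a) (fun _ _ => Dec.add) Dec.zero h

lemma dec_sym {D : ℕ} (hD : ∀ c : Fin k → ℕ, c ≠ 0 → (∀ i, c i ≤ D) → ∃ b, ex b = c) (N : ℕ) :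
    ∀ α : Fin n → Fin k → ℕ, (univ.filter fun j => α j ≠ 0).card = N → α ≠ 0 →
      (∀ i, (∑ j, α j) i ≤ D) → Dec ex ⊤ (∑ j, α j) (av ⊤ (mon α)) := by
  induction N using Nat.strong_induction_on with
  | _ N ih =>
  intro α hN hα hle
  obtain ⟨j0, hj0⟩ := Function.ne_iff.1 hα
  have hj0' : α j0 ≠ 0 := hj0
  obtain ⟨b, hb⟩ := hD (α j0) hj0' fun i => le_trans (by
    rw [Finset.sum_apply]
    exact single_le_sum (f := fun j => α j i) (fun _ _ => Nat.zero_le _) (mem_univ j0)) (hle i)
  set α' := Function.update α j0 0 with hα'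
  have hsum : ∀ j, ∑ j', (α' + Pi.single j (α j0) : Fin n → Fin k → ℕ) j' = ∑ j', α j' := by
    intro j
    simp only [Pi.add_apply, sum_add_distrib, Finset.sum_pi_single', mem_univ, if_true, hα']
    rw [sum_update_of_mem (mem_univ j0), ← add_sum_erase _ _ (mem_univ j0), sdiff_singleton_eq_erase]
    abel
  have h1 : p1 n ex b * av ⊤ (mon α') = ∑ j, av ⊤ (mon (α' + Pi.single j (α j0))) := by
    rw [← av_mul (fix_p1 ex b), p1_eq, sum_mul, av_sum, hb]
    simp only [mon_add_single]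
  have h2 : ∀ j ∈ univ.filter (fun j => α' j = 0),
      av ⊤ (mon (α' + Pi.single j (α j0))) = av ⊤ (mon α) := by
    intro j hj
    have hj' := (mem_filter.1 hj).2
    have : α' + Pi.single j (α j0) = α ∘ Equiv.swap j j0 := by
      funext j'
      by_cases e1 : j' = j
      · subst e1; simp [hj']
      · by_cases e2 : j' = j0
        · subst e2
          have : α j = 0 := by simpa [hα', Function.update_of_ne (Ne.symm e1)] using hj'
          simp [hα', Pi.single_eq_of_ne e1, this]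
        · simp [hα', Pi.single_eq_of_ne e1, Function.update_of_ne e2,
            Equiv.swap_apply_of_ne_of_ne e1 e2]
    rw [this, ← av_act (Subgroup.mem_top (Equiv.swap j j0)), act_mon]
  have h3 : ∀ j ∈ univ.filter (fun j => ¬ α' j = 0),
      Dec ex ⊤ (∑ j, α j) (av ⊤ (mon (α' + Pi.single j (α j0)))) := by
    intro j hj
    have hj' := (mem_filter.1 hj).2
    have hjj : j ≠ j0 := by rintro rfl; simp [hα'] at hj'
    rw [← hsum j]
    refine ih _ ?_ _ rfl ?_ (by rw [hsum]; exact hle)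
    · rw [← hN]
      apply card_lt_card
      refine ⟨fun j' h => ?_, fun h => ?_⟩
      · have h' := (mem_filter.1 h).2
        simp only [mem_filter, mem_univ, true_and]
        by_cases e1 : j' = j
        · subst e1; simpa [hα', Function.update_of_ne hjj] using hj'
        · by_cases e2 : j' = j0
          · subst e2; exact hj0'
          · simpa [hα', Pi.single_eq_of_ne e1, Function.update_of_ne e2] using h'
      · have := (mem_filter.1 (h (mem_filter.2 ⟨mem_univ j0, hj0'⟩))).2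
        simp [hα', Pi.single_eq_of_ne hjj.symm] at this
    · intro h
      have := congrFun h j
      simp only [Pi.add_apply, Pi.single_eq_same, Pi.zero_apply, add_eq_zero] at this
      exact hj0' this.2
  have h4 : Dec ex ⊤ (∑ j, α j) (p1 n ex b * av ⊤ (mon α')) := by
    refine ⟨Pi.single b (av ⊤ (mon α')), fun b' => ?_, ?_⟩
    · by_cases e : b' = b
      · subst e
        rw [Pi.single_eq_same]
        refine ⟨fix_av _, (supD_mon α').av.mono fun m hm => ?_⟩
        have hm' : md m = ∑ j, α' j := hm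
        rw [hm', hb, ← hsum j0]
        simp [sum_add_distrib]
      · rw [Pi.single_eq_of_ne e]; exact ⟨FixH.zero, SupP.zero⟩
    · rw [Finset.sum_eq_single b] <;> simp +contextual [Pi.single_apply]
  set z := (univ.filter fun j => α' j = 0).card with hz
  have hz0 : (z : ℂ) ≠ 0 := Nat.cast_ne_zero.2 (card_pos.2 ⟨j0, by simp [hα']⟩).ne'
  rw [← sum_filter_add_sum_filter_not univ (fun j => α' j = 0), sum_congr rfl h2, sum_const,
    nsmul_eq_mul, ← hz] at h1
  have h5 : av ⊤ (mon α) = C (z : ℂ)⁻¹ * (p1 n ex b * av ⊤ (mon α') + C (-1) *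
      ∑ j ∈ univ.filter (fun j => ¬ α' j = 0), av ⊤ (mon (α' + Pi.single j (α j0)))) := by
    have : (C (z : ℂ)⁻¹ : PR k (Fin n)) * z = 1 := by
      rw [← map_natCast (C : ℂ →+* PR k (Fin n)), ← map_mul, inv_mul_cancel₀ hz0, map_one]
    rw [h1, map_neg, map_one]
    linear_combination (-av ⊤ (mon α)) * this
  rw [h5]
  exact (h4.add ((Dec.sum h3).C_mul _)).C_mul _

lemma av_expand (g : PR k (Fin n)) (hg : FixH ⊤ g) :
    g = ∑ m ∈ g.support, C (coeff m g) * av ⊤ (mon fun j r => m (r, j)) := by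
  conv_lhs => rw [← av_of_fix hg, as_sum g, av_sum]
  exact sum_congr rfl fun m _ => by rw [monomial_eq_mon, av_mul (FixH.C _)]

lemma md_eq_zero {m : Fin k × Fin n →₀ ℕ} (h : md m = 0) : m = 0 := by
  ext ⟨r, j⟩
  have := congrFun h r
  rw [md_apply, Pi.zero_apply, sum_eq_zero_iff] at this
  exact this j (mem_univ j)

lemma dec_mono {D : ℕ} (hD : ∀ c : Fin k → ℕ, c ≠ 0 → (∀ i, c i ≤ D) → ∃ b, ex b = c)
    (m : Fin k × Fin n →₀ ℕ) (hm : m ≠ 0) (hle : ∀ i, md m i ≤ D) :
    Dec ex ⊤ (md m) (av ⊤ (mon fun j r => m (r, j))) := by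
  rw [md_eq] at hle ⊢
  refine dec_sym hD _ _ rfl (fun h => hm ?_) hle
  ext ⟨r, j⟩
  exact congrFun (congrFun h j) r

lemma dec_inv {D : ℕ} (hD : ∀ c : Fin k → ℕ, c ≠ 0 → (∀ i, c i ≤ D) → ∃ b, ex b = c)
    {g : PR k (Fin n)} (hg : FixH ⊤ g) (h0 : coeff 0 g = 0) (ha : SupD (fun d => d = a) g)
    (hle : ∀ i, a i ≤ D) : Dec ex ⊤ a g := by
  rw [av_expand g hg]
  refine Dec.sum fun m hm => Dec.C_mul ?_ _
  have h1 : md m = a := ha m (mem_support_iff.1 hm)
  rw [← h1] at hle ⊢
  exact dec_mono hD m (fun h => mem_support_iff.1 hm (h ▸ h0)) hle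

/-- the ideal generated by invariants without constant term -/
noncomputable def II (k n : ℕ) : Ideal (PR k (Fin n)) :=
  Ideal.span {p | (∀ σ : Equiv.Perm (Fin n), act σ p = p) ∧ coeff 0 p = 0}

lemma dec_ideal {D : ℕ} (hD : ∀ c : Fin k → ℕ, c ≠ 0 → (∀ i, c i ≤ D) → ∃ b, ex b = c)
    {w : PR k (Fin n)} (hw : w ∈ II k n) (hH : FixH H w) (ha : SupD (fun d => d = a) w)
    (hle : ∀ i, a i ≤ D) : Dec ex H a w := by
  classical
  have hup : Up (fun m : Fin k × Fin n →₀ ℕ => ∃ i, D < md m i) := by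
    rintro m m' ⟨i, hi⟩
    exact ⟨i, by simp only [md, map_add, Pi.add_apply] at hi ⊢; omega⟩
  have h1 : ∃ u : B → PR k (Fin n), SupD (fun d => ∃ i, D < d i) (w - ∑ b, p1 n ex b * u b) := by
    clear hH ha
    induction hw using Submodule.span_induction with
    | mem g hg =>
      have hg1 : FixH ⊤ g := fun σ _ => hg.1 σ
      have : ∀ m ∈ g.support, ∃ u : B → PR k (Fin n), SupD (fun d => ∃ i, D < d i)
          (C (coeff m g) * av ⊤ (mon fun j r => m (r, j)) - ∑ b, p1 n ex b * u b) := by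
        intro m hm
        by_cases hm' : ∀ i, md m i ≤ D
        · obtain ⟨u, _, hu⟩ := (dec_mono hD m (fun h => mem_support_iff.1 hm (h ▸ hg.2)) hm').C_mul
            (coeff m g)
          exact ⟨u, by rw [hu, sub_self]; exact SupP.zero⟩
        · push Not at hm'
          refine ⟨fun _ => 0, ?_⟩
          simp only [mul_zero, sum_const_zero, sub_zero]
          refine ((supD_mon _).av.C_mul _).mono fun m' h => ?_
          have h' : md m' = md m := by rw [md_eq m]; exact h
          rw [h']; exact hm'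
      choose! u hu using this
      refine ⟨fun b => ∑ m ∈ g.support, u m b, ?_⟩
      have e : g - ∑ b, p1 n ex b * ∑ m ∈ g.support, u m b = ∑ m ∈ g.support,
          (C (coeff m g) * av ⊤ (mon fun j r => m (r, j)) - ∑ b, p1 n ex b * u m b) := by
        rw [sum_sub_distrib, ← av_expand g hg1, sum_comm]
        simp only [mul_sum]
      rw [e]
      exact SupP.sum hu
    | zero => exact ⟨fun _ => 0, by simpa using SupP.zero⟩
    | add x y _ _ hx hy =>
      obtain ⟨u, hu⟩ := hx
      obtain ⟨v, hv⟩ := hy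
      refine ⟨fun b => u b + v b, ?_⟩
      have := hu.add hv
      simp only [mul_add, sum_add_distrib]
      rwa [show x + y - (∑ b, p1 n ex b * u b + ∑ b, p1 n ex b * v b) =
        x - ∑ b, p1 n ex b * u b + (y - ∑ b, p1 n ex b * v b) by ring]
    | smul c x _ hx =>
      obtain ⟨u, hu⟩ := hx
      refine ⟨fun b => c * u b, ?_⟩
      have := SupP.mul_up hup c hu
      rw [mul_sub, mul_sum] at this
      simpa only [smul_eq_mul, mul_left_comm] using this
  obtain ⟨u, hu⟩ := h1
  set v : B → PR k (Fin n) := fun b => proj (fun m => md m + ex b = a) (u b) with hv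
  have hv1 : ∀ b, SupD (fun d => d + ex b = a) (v b) := fun b =>
    (SupP.triv _).proj.mono fun _ h => h.1
  have h2 : SupD (fun d => d = a) (w - ∑ b, p1 n ex b * v b) :=
    ha.sub (SupP.sum fun b _ => SupD.mul (P'' := fun d => d = a) (supD_ps _ ex b) (hv1 b)
      fun d d' h1 h2 => by rw [h1, add_comm, h2])
  have h3 : SupD (fun d => d ≠ a) (w - ∑ b, p1 n ex b * v b) := by
    rw [show w - ∑ b, p1 n ex b * v b = (w - ∑ b, p1 n ex b * u b) +
      ∑ b, p1 n ex b * (u b - v b) by simp only [mul_sub, sum_sub_distrib]; ring]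
    refine (hu.mono ?_).add (SupP.sum fun b _ => SupD.mul (P'' := fun d => d ≠ a)
      (P' := fun d => d + ex b ≠ a) (supD_ps _ ex b)
      ((SupP.triv _).sub_proj.mono fun _ h => h.1) fun d d' h1 h2 => by rwa [h1, add_comm])
    rintro m ⟨i, hi⟩ h
    have := hle i
    rw [h] at hi
    omega
  have h4 := sub_eq_zero.1 ((h2.and h3).eq_zero fun m h => h.2 h.1)
  refine ⟨fun b => av H (v b), fun b => ⟨fix_av _, (hv1 b).av⟩, ?_⟩
  rw [← av_of_fix hH, h4, av_sum]
  exact sum_congr rfl fun b _ => av_mul (fix_p1 ex b) _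

end Pool.Agent.H291Z.Kos
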