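import Pool.Agent.H291Z.KosF

set_option autoImplicit false

open Finset MvPolynomial

namespace Pool.Agent.H291Z.Kos

variable {k n : ℕ} {B : Type} [LinearOrder B] [Fintype B]
variable {H : Subgroup (Equiv.Perm (Fin n))} {ex : B → Fin k → ℕ}

lemma exists_family {V : Type} [AddCommGroup V] [Module ℂ V] (W I : Submodule ℂ V)
    [FiniteDimensional ℂ W] : ∃ (t : ℕ) (c : Fin t → V), (∀ i, c i ∈ W) ∧
      (∀ l : Fin t → ℂ, ∑ i, l i • c i ∈ I → ∀ i, l i = 0) ∧
      (∀ v ∈ W, ∃ l : Fin t → ℂ, v - ∑ i, l i • c i ∈ I) ∧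
      t + Module.finrank ℂ ↥(W ⊓ I) = Module.finrank ℂ W := by
  obtain ⟨U, hU⟩ := Submodule.exists_isCompl (I.comap W.subtype)
  let b := Module.finBasis ℂ U
  refine ⟨Module.finrank ℂ U, fun i => ((b i : W) : V), fun i => (b i : W).2, ?_, ?_, ?_⟩
  · intro l hl
    have h1 : ((∑ i, l i • b i : U) : W) ∈ I.comap W.subtype := by
      simpa using hl
    have h2 : ((∑ i, l i • b i : U) : W) = 0 :=
      (Submodule.disjoint_def.1 hU.disjoint) _ h1 (∑ i, l i • b i : U).2
    have h3 : (∑ i, l i • b i : U) = 0 := Subtype.ext h2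
    exact Fintype.linearIndependent_iff.1 b.linearIndependent l h3
  · intro v hv
    have : (⟨v, hv⟩ : W) ∈ I.comap W.subtype ⊔ U := by rw [hU.sup_eq_top]; trivial
    obtain ⟨x, hx, y, hy, hxy⟩ := Submodule.mem_sup.1 this
    refine ⟨fun i => b.repr ⟨y, hy⟩ i, ?_⟩
    have h1 := congrArg (fun z : U => ((z : W) : V)) (b.sum_repr ⟨y, hy⟩)
    simp only [Submodule.coe_sum, Submodule.coe_smul] at h1
    have h2 : (x : V) + y = v := congrArg Subtype.val hxy
    rw [h1, ← h2, add_sub_cancel_right]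
    exact hx
  · have h1 := Submodule.finrank_add_eq_of_isCompl hU
    have h2 : I.comap W.subtype = (W ⊓ I).comap W.subtype := by
      ext x; simp
    have h3 := (Submodule.comapSubtypeEquivOfLe (inf_le_left : W ⊓ I ≤ W)).finrank_eq
    rw [h2, h3] at h1
    omega

lemma eq_C_of_deg {F : PR k (Fin n)} (h : SupD (fun d => d = 0) F) : F = C (coeff 0 F) := by
  classical
  ext m
  rw [coeff_C]
  split_ifs with h0
  · rw [h0]
  · by_contra hm
    exact h0 (md_eq_zero (h m hm)).symm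

lemma sub_C_mem {g : PR k (Fin n)} (hg : FixH ⊤ g) : g - C (coeff 0 g) ∈ II k n :=
  Ideal.subset_span ⟨fun σ => (hg.sub (FixH.C _)) σ trivial, by simp⟩

section fam
variable {κ : Type} [Fintype κ] (c : κ → PR k (Fin n)) (dg : κ → Fin k → ℕ)

/-- admissible coefficient families -/
def Coefs (a : Fin k → ℕ) (g : κ → PR k (Fin n)) : Prop :=
  ∀ i, FixH ⊤ (g i) ∧ SupD (fun d => d + dg i = a) (g i)

variable (hne : ∀ b, ex b ≠ 0)
  (hD : ∀ c : Fin k → ℕ, c ≠ 0 → (∀ i, c i ≤ n) → ∃ b, ex b = c)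
  (hc : ∀ i, FixH H (c i) ∧ SupD (fun d => d = dg i) (c i))
  (hspan : ∀ a : Fin k → ℕ, (∀ i, a i ≤ n) → ∀ v, FixH H v → SupD (fun d => d = a) v →
    ∃ l : κ → ℂ, (∀ i, dg i ≠ a → l i = 0) ∧ v - ∑ i, C (l i) * c i ∈ II k n)
  (hind : ∀ (a : Fin k → ℕ) (l : κ → ℂ), (∀ i, dg i ≠ a → l i = 0) →
    ∑ i, C (l i) * c i ∈ II k n → ∀ i, l i = 0)

lemma sum_lt_of_add {a0 o a : Fin k → ℕ} (h : a0 + o = a) (ho : o ≠ 0) :
    ∑ i, a0 i < ∑ i, a i := by
  obtain ⟨i, hi⟩ := Function.ne_iff.1 ho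
  rw [← h]
  simp only [Pi.add_apply, sum_add_distrib]
  have : 0 < ∑ i, o i := Finset.sum_pos' (fun _ _ => Nat.zero_le _)
    ⟨i, mem_univ i, Nat.pos_of_ne_zero hi⟩
  omega

include hne hD hc hspan in
lemma fam_surj (e : ℕ) : ∀ a : Fin k → ℕ, ∑ i, a i = e → (∀ i, a i ≤ n) → ∀ v, FixH H v →
    SupD (fun d => d = a) v → ∃ g, Coefs dg a g ∧ v = ∑ i, g i * c i := by
  induction e using Nat.strong_induction_on with
  | _ e ih =>
  intro a ha hle v hv hva
  obtain ⟨l, hl, hI⟩ := hspan a hle v hv hva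
  have hlc : Coefs dg a fun i => (C (l i) : PR k (Fin n)) := fun i => ⟨FixH.C _, by
    by_cases h : dg i = a
    · exact (supD_C _).mono fun m hm => by
        have h1 : md m = 0 := hm
        simp [h1, h]
    · simp [hl i h, SupP.zero]⟩
  obtain ⟨u, hu, hu'⟩ := dec_ideal hD hI
    (hv.sub (FixH.sum fun i _ => (FixH.C _).mul (hc i).1))
    (hva.sub (SupP.sum fun i _ => SupD.mul (P'' := fun d => d = a) (hlc i).2 (hc i).2
      fun d d' h1 h2 => by rw [h2, h1])) hle
  have : ∀ b, ∃ g : κ → PR k (Fin n), (∀ i, FixH ⊤ (g i) ∧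
      SupD (fun d => d + dg i + ex b = a) (g i)) ∧ u b = ∑ i, g i * c i := by
    intro b
    by_cases h : ∃ a0, a0 + ex b = a
    · obtain ⟨a0, h0⟩ := h
      obtain ⟨g, hg, hg'⟩ := ih _ (ha ▸ sum_lt_of_add h0 (hne b)) a0 rfl
        (fun i => le_trans (by rw [← h0]; simp) (hle i)) (u b) (hu b).1
        ((hu b).2.mono fun m hm => add_right_cancel (hm.trans h0.symm))
      exact ⟨g, fun i => ⟨(hg i).1, (hg i).2.mono fun m hm => by
        have h1 : md m + dg i = a0 := hm
        show md m + dg i + ex b = a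
        rw [h1, h0]⟩, hg'⟩
    · refine ⟨fun _ => 0, fun _ => ⟨FixH.zero, SupP.zero⟩, ?_⟩
      rw [(hu b).2.eq_zero fun m hm => h ⟨_, hm⟩]; simp
  choose g hg hg' using this
  refine ⟨fun i => C (l i) + ∑ b, p1 n ex b * g b i, fun i => ⟨(hlc i).1.add
    (FixH.sum fun b _ => (fix_p1 ex b).mul (hg b i).1), (hlc i).2.add (SupP.sum fun b _ =>
      SupD.mul (P'' := fun d => d + dg i = a) (supD_ps _ ex b) (hg b i).2
        fun d d' h1 h2 => by rw [h1, ← h2]; abel)⟩, ?_⟩
  simp only [add_mul, sum_add_distrib, sum_mul]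
  rw [sum_comm, ← sub_eq_iff_eq_add', hu']
  refine sum_congr rfl fun b _ => ?_
  rw [hg' b, mul_sum]
  exact sum_congr rfl fun i _ => by ring

lemma dd_off {p : B → PR k (Fin n)} (hp : ∀ b, SupD (fun d => d = ex b) (p b)) {q : ℕ}
    {o a : Fin k → ℕ} {f : Finset B → PR k (Fin n)}
    (h : ∀ S, SupD (fun d => S.card = q + 1 ∧ d + o + ∑ b ∈ S, ex b = a) (f S)) (S : Finset B) :
    SupD (fun d => S.card = q ∧ d + o + ∑ b ∈ S, ex b = a) (dd p f S) :=
  SupP.sum fun b _ => SupD.mul (P'' := fun d => S.card = q ∧ d + o + ∑ b ∈ S, ex b = a)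
    (P' := fun d => S.card = q ∧ d + o + (ex b + ∑ b ∈ S, ex b) = a) (hp b)
    (SupP.io fun hb => (h (insert b S)).mono fun m hm => by
      rw [card_insert_of_notMem hb, sum_insert hb] at hm
      exact ⟨by omega, hm.2⟩)
    fun d d' h1 h2 => ⟨h2.1, by rw [h1, ← h2.2]; abel⟩

include hne hD hc hspan hind in
lemma fam_inj (hinj : Function.Injective ex) (e : ℕ) : ∀ a : Fin k → ℕ, ∑ i, a i = e → e ≤ n →
    ∀ g, Coefs dg a g → ∑ i, g i * c i = 0 → ∀ i, g i = 0 := by
  classical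
  induction e using Nat.strong_induction_on with
  | _ e ih =>
  intro a ha hen g hg h0
  have hle : ∀ i, a i ≤ n := fun i =>
    (single_le_sum (f := a) (fun _ _ => Nat.zero_le _) (mem_univ i)).trans (ha ▸ hen)
  have h1 : ∀ i, coeff 0 (g i) = 0 := by
    refine hind a (fun i => coeff 0 (g i)) (fun i hi => ?_) ?_
    · by_contra h
      exact hi (by simpa [md] using (hg i).2 0 h)
    · have : ∑ i, C (coeff 0 (g i)) * c i = -∑ i, (g i - C (coeff 0 (g i))) * c i := by
        simp only [sub_mul, sum_sub_distrib, h0]; ring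
      rw [this]
      exact neg_mem (Ideal.sum_mem _ fun i _ => Ideal.mul_mem_right _ _ (sub_C_mem (hg i).1))
  have h2 : ∀ i, ∃ u : B → PR k (Fin n), (∀ b, FixH ⊤ (u b) ∧
      SupD (fun d => d + ex b + dg i = a) (u b)) ∧ g i = ∑ b, p1 n ex b * u b := by
    intro i
    by_cases h : ∃ a0, a0 + dg i = a
    · obtain ⟨a0, ha0⟩ := h
      obtain ⟨u, hu, hu'⟩ := dec_inv hD (hg i).1 (h1 i)
        ((hg i).2.mono fun m hm => add_right_cancel (hm.trans ha0.symm))
        (fun j => le_trans (by rw [← ha0]; simp) (hle j))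
      exact ⟨u, fun b => ⟨(hu b).1, (hu b).2.mono fun m hm => by
        have h1 : md m + ex b = a0 := hm
        show md m + ex b + dg i = a
        rw [h1, ha0]⟩, hu'⟩
    · refine ⟨fun _ => 0, fun _ => ⟨FixH.zero, SupP.zero⟩, ?_⟩
      rw [(hg i).2.eq_zero fun m hm => h ⟨_, hm⟩]; simp
  choose u hu hu' using h2
  set p := p1 n ex with hp
  have hpd : ∀ b, SupD (fun d => d = ex b) (p b) := supD_ps _ ex
  set ft : κ → Finset B → PR k (Fin n) := fun i S =>
    ∑ b, ep b (fun T => if T = ∅ then u i b else 0) S with hft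
  have hft1 : ∀ i S, FixH ⊤ (ft i S) := fun i S => FixH.sum fun b _ => by
    unfold ep
    split_ifs
    · intro σ hσ
      rw [map_zsmul]; congr 1; beta_reduce
      split_ifs
      · exact (hu i b).1 σ hσ
      · exact map_zero _
    · exact FixH.zero
  have hft2 : ∀ i S, SupD (fun d => S.card = 0 + 1 ∧ d + dg i + ∑ b ∈ S, ex b = a) (ft i S) :=
    fun i S => SupP.sum fun b _ => SupP.ep fun hb => by
      split_ifs with h
      · have hS : S = {b} := by rw [← insert_erase hb, h]; rfl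
        exact (hu i b).2.mono fun m hm => by
          have h1 : md m + ex b + dg i = a := hm
          rw [hS]; exact ⟨by simp, by rw [sum_singleton, ← h1]; abel⟩
      · exact SupP.zero
  have hft3 : ∀ i S, dd p (ft i) S = if S = ∅ then g i else 0 := by
    intro i S
    simp only [hft]
    rw [dd_sum]
    have : ∀ b, dd p (fun T => if T = ∅ then u i b else 0) = fun _ => 0 := by
      intro b; funext T
      simp [dd, io]
    simp only [dd_ep, this]
    split_ifs
    · simp [hu' i, ep]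
    · simp [ep]
  obtain ⟨h, hh, hh'⟩ := koszul_main hinj hne hD e (Fin n) (fun _ => 1) 1 a ha hle le_rfl
    (by simpa using hen) (fun S => ∑ i, c i * ft i S)
    (fun S => SupP.sum fun i _ => SupD.mul
      (P'' := fun d => S.card = 1 ∧ d + ∑ b ∈ S, ex b = a) (hc i).2 (hft2 i S)
      fun d d' h1 h2 => ⟨h2.1, by rw [h1, ← h2.2]; abel⟩)
    (fun S => by
      show dd p _ S = 0
      rw [dd_sum]
      simp only [dd_mul, hft3]
      split_ifs
      · simpa [mul_comm] using h0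
      · simp)
  have h3 : ∀ S, ∃ w : κ → PR k (Fin n), (∀ i, FixH ⊤ (w i) ∧
      SupD (fun d => S.card = 1 + 1 ∧ d + dg i + ∑ b ∈ S, ex b = a) (w i)) ∧
      av H (h S) = ∑ i, w i * c i := by
    intro S
    by_cases hS : S.card = 1 + 1 ∧ ∃ a0, a0 + ∑ b ∈ S, ex b = a
    · obtain ⟨hS, a0, ha0⟩ := hS
      obtain ⟨w, hw, hw'⟩ := fam_surj c dg hne hD hc hspan _ a0 rfl
        (fun j => le_trans (by rw [← ha0]; simp) (hle j)) (av H (h S)) (fix_av _)
        ((hh S).av.mono fun m hm => add_right_cancel (hm.2.trans ha0.symm))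
      exact ⟨w, fun i => ⟨(hw i).1, (hw i).2.mono fun m hm => by
        have h1 : md m + dg i = a0 := hm
        exact ⟨hS, show md m + dg i + ∑ b ∈ S, ex b = a by rw [h1, ha0]⟩⟩, hw'⟩
    · refine ⟨fun _ => 0, fun _ => ⟨FixH.zero, SupP.zero⟩, ?_⟩
      rw [(hh S).av.eq_zero fun m hm => hS ⟨hm.1, _, hm.2⟩]; simp
  choose w hw hw' using h3
  have h4 : ∀ S, ∑ i, (ft i S - dd p (fun T => w T i) S) * c i = 0 := by
    intro S
    have e1 : ∑ i, c i * ft i S = dd p (fun T => av H (h T)) S := by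
      rw [dd_av (fix_p1 ex), ← hh' S, av_of_fix]
      exact FixH.sum fun i _ => (hc i).1.mul (hft1 i S).of_top
    simp only [hw', mul_comm (w _ _)] at e1
    rw [dd_sum] at e1
    simp only [dd_mul] at e1
    simp only [mul_comm _ (c _), mul_sub, sum_sub_distrib, e1, sub_self]
  have h5 : ∀ i S, ft i S = dd p (fun T => w T i) S := by
    intro i S
    have hz : ∀ i, SupD (fun d => S.card = 1 ∧ d + dg i + ∑ b ∈ S, ex b = a)
        (ft i S - dd p (fun T => w T i) S) := fun i =>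
      (hft2 i S).sub (dd_off hpd (fun T => (hw T i).2) S)
    by_cases hS : S.card = 1 ∧ ∃ a0, a0 + ∑ b ∈ S, ex b = a
    · obtain ⟨hS, a0, ha0⟩ := hS
      have hw0 : ∑ b ∈ S, ex b ≠ 0 := by
        obtain ⟨b, rfl⟩ := card_eq_one.1 hS
        simpa using hne b
      have hlt := sum_lt_of_add ha0 hw0
      refine sub_eq_zero.1 (ih _ (ha ▸ hlt) a0 rfl (by omega)
        (fun i => ft i S - dd p (fun T => w T i) S) (fun i => ⟨(hft1 i S).sub
          (FixH.dd (fix_p1 ex) (fun T => (hw T i).1) S), (hz i).mono fun m hm =>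
            add_right_cancel (hm.2.trans ha0.symm)⟩) (h4 S) i)
    · exact sub_eq_zero.1 ((hz i).eq_zero fun m hm => hS ⟨hm.1, _, hm.2⟩)
  intro i
  have h6 := hft3 i ∅
  rw [if_pos rfl, show ft i = dd p (fun T => w T i) from funext (h5 i), dd_dd] at h6
  exact h6.symm

end fam

end Pool.Agent.H291Z.Kos
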