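import Pool.Agent.H291Z.KosG

set_option autoImplicit false

open Finset MvPolynomial

namespace Pool.Agent.H291Z.Kos

variable {k n : ℕ}

/-- multihomogeneous component -/
noncomputable def DegS (k n : ℕ) (a : Fin k → ℕ) : Submodule ℂ (PR k (Fin n)) :=
  weightedHomogeneousSubmodule ℂ (rw1 k (Fin n)) a

/-- fixed submodule -/
noncomputable def FixS (k : ℕ) (H : Subgroup (Equiv.Perm (Fin n))) : Submodule ℂ (PR k (Fin n)) :=
  ⨅ σ ∈ H, LinearMap.ker ((act (k := k) σ).toLinearMap - LinearMap.id)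

lemma mem_DegS {a : Fin k → ℕ} {F : PR k (Fin n)} : F ∈ DegS k n a ↔ SupD (fun d => d = a) F :=
  ⟨fun h _ hm => h hm, fun h m hm => h m hm⟩

lemma mem_FixS {H : Subgroup (Equiv.Perm (Fin n))} {F : PR k (Fin n)} :
    F ∈ FixS k H ↔ FixH H F := by
  simp [FixS, FixH, Submodule.mem_iInf, sub_eq_zero]

instance fd_DegS (a : Fin k → ℕ) : FiniteDimensional ℂ (DegS k n a) := by
  classical
  have hfin : {d : Fin k × Fin n →₀ ℕ | Finsupp.weight (rw1 k (Fin n)) d = a}.Finite := by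
    refine (Set.finite_Iic (Finsupp.equivFunOnFinite.symm fun x : Fin k × Fin n => a x.1)).subset ?_
    rintro d hd ⟨r, j⟩
    have h1 : md d r = a r := congrFun hd r
    rw [md_apply] at h1
    simp only [Finsupp.coe_equivFunOnFinite_symm]
    rw [← h1]
    exact single_le_sum (f := fun j => d (r, j)) (fun _ _ => Nat.zero_le _) (mem_univ j)
  have := hfin.to_subtype
  unfold DegS
  rw [weightedHomogeneousSubmodule_eq_finsupp_supported]
  exact Module.Finite.of_basis
    (basisRestrictSupport ℂ {d | Finsupp.weight (rw1 k (Fin n)) d = a})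

instance fd_inf (a : Fin k → ℕ) (W : Submodule ℂ (PR k (Fin n))) :
    FiniteDimensional ℂ ↥(DegS k n a ⊓ W) :=
  Submodule.finiteDimensional_of_le inf_le_left

theorem main (H : Subgroup (Equiv.Perm (Fin n))) (a : Fin k → ℕ) (ha : ∑ i, a i ≤ n) :
    ∑ b : Fin k → Fin (n + 1),
      (if (∀ i, (b i : ℕ) ≤ a i) then
        (((Module.finrank ℂ ↥(DegS k n (fun i => (b i : ℕ)) ⊓ FixS k H) : ℤ)
          - (Module.finrank ℂ ↥(DegS k n (fun i => (b i : ℕ)) ⊓ FixS k H
                ⊓ Submodule.restrictScalars ℂ (II k n)) : ℤ))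
         * (Module.finrank ℂ ↥(DegS k n (a - fun i => (b i : ℕ)) ⊓ FixS k ⊤) : ℤ))
      else 0)
    = (Module.finrank ℂ ↥(DegS k n a ⊓ FixS k H) : ℤ) := by
  classical
  let B := {c : Fin k → Fin (n + 1) // c ≠ 0}
  let : LinearOrder B := LinearOrder.lift' (Fintype.equivFin B) (Fintype.equivFin B).injective
  let cs : (Fin k → Fin (n + 1)) → Fin k → ℕ := fun b i => b i
  have hcs : Function.Injective cs := fun b b' h => funext fun i => Fin.ext (congrFun h i)
  have hcs' : ∀ c : Fin k → ℕ, (∀ i, c i ≤ n) → ∃ b, cs b = c := fun c hc =>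
    ⟨fun i => ⟨c i, Nat.lt_succ_of_le (hc i)⟩, rfl⟩
  let ex : B → Fin k → ℕ := fun b => cs b.1
  have hinj : Function.Injective ex := fun b b' h => Subtype.ext (hcs h)
  have hne : ∀ b, ex b ≠ 0 := fun b h => b.2 (hcs h)
  have hD : ∀ c : Fin k → ℕ, c ≠ 0 → (∀ i, c i ≤ n) → ∃ b, ex b = c := by
    intro c hc hle
    obtain ⟨b, hb⟩ := hcs' c hle
    exact ⟨⟨b, fun h => hc (by rw [← hb, h]; rfl)⟩, hb⟩
  choose t c0 hc1 hc2 hc3 hc4 using fun b : Fin k → Fin (n + 1) =>
    exists_family (DegS k n (cs b) ⊓ FixS k H) (Submodule.restrictScalars ℂ (II k n))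
  let κ := Σ b, Fin (t b)
  let c : κ → PR k (Fin n) := fun i => c0 i.1 i.2
  let dg : κ → Fin k → ℕ := fun i => cs i.1
  have hc : ∀ i, FixH H (c i) ∧ SupD (fun d => d = dg i) (c i) := fun i =>
    ⟨mem_FixS.1 (hc1 i.1 i.2).2, mem_DegS.1 (hc1 i.1 i.2).1⟩
  have hsum : ∀ (b : Fin k → Fin (n + 1)) (l : κ → ℂ), (∀ i, dg i ≠ cs b → l i = 0) →
      ∑ i, C (l i) * c i = ∑ j, l ⟨b, j⟩ • c0 b j := by
    intro b l hl
    rw [Fintype.sum_sigma, Finset.sum_eq_single b]
    · simp only [smul_eq_C_mul, c]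
    · intro b' _ hb'
      exact sum_eq_zero fun j _ => by rw [hl ⟨b', j⟩ fun h => hb' (hcs h)]; simp
    · simp
  have hspan : ∀ a : Fin k → ℕ, (∀ i, a i ≤ n) → ∀ v, FixH H v → SupD (fun d => d = a) v →
      ∃ l : κ → ℂ, (∀ i, dg i ≠ a → l i = 0) ∧ v - ∑ i, C (l i) * c i ∈ II k n := by
    intro a hle v hv hva
    obtain ⟨b, rfl⟩ := hcs' a hle
    obtain ⟨l, hl⟩ := hc3 b v ⟨mem_DegS.2 hva, mem_FixS.2 hv⟩
    let l' : κ → ℂ := fun i => if h : i.1 = b then l (h ▸ i.2) else 0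
    have h1 : ∀ i, dg i ≠ cs b → l' i = 0 := fun i hi =>
      dif_neg fun h => hi (by simp only [dg, h])
    refine ⟨l', h1, ?_⟩
    rw [hsum b l' h1]
    simpa [l'] using hl
  have hind : ∀ (a : Fin k → ℕ) (l : κ → ℂ), (∀ i, dg i ≠ a → l i = 0) →
      ∑ i, C (l i) * c i ∈ II k n → ∀ i, l i = 0 := by
    intro a l hl hI i
    by_cases h : dg i = a
    · subst h
      rw [hsum i.1 l hl] at hI
      exact hc2 i.1 (fun j => l ⟨i.1, j⟩) hI i.2
    · exact hl i h
  let Sub : κ → Submodule ℂ (PR k (Fin n)) := fun i =>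
    if ∀ r, dg i r ≤ a r then DegS k n (a - dg i) ⊓ FixS k ⊤ else ⊥
  have hSub : ∀ i F, F ∈ Sub i ↔ FixH ⊤ F ∧ SupD (fun d => d + dg i = a) F := by
    intro i F
    simp only [Sub]
    split_ifs with h
    · rw [Submodule.mem_inf, mem_DegS, mem_FixS, and_comm]
      refine and_congr_right fun _ => ⟨fun h' => h'.mono fun m hm => ?_,
        fun h' => h'.mono fun m hm => ?_⟩
      · have h1 : md m = a - dg i := hm
        show md m + dg i = a
        rw [h1]; funext r; exact Nat.sub_add_cancel (h r)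
      · have h1 : md m + dg i = a := hm
        show md m = a - dg i
        rw [← h1]; funext r; simp
    · rw [Submodule.mem_bot]
      refine ⟨fun h' => h' ▸ ⟨FixH.zero, SupP.zero⟩, fun h' => h'.2.eq_zero fun m hm => h fun r => ?_⟩
      have h1 : md m + dg i = a := hm
      rw [← h1]; simp
  have : ∀ i, FiniteDimensional ℂ (Sub i) := fun i => by
    by_cases h : ∀ r, dg i r ≤ a r
    · rw [show Sub i = DegS k n (a - dg i) ⊓ FixS k ⊤ from if_pos h]; infer_instance
    · rw [show Sub i = ⊥ from if_neg h]; infer_instance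
  let φ0 : (∀ i, Sub i) →ₗ[ℂ] PR k (Fin n) :=
    { toFun := fun g => ∑ i, (g i : PR k (Fin n)) * c i
      map_add' := fun g g' => by simp [add_mul, sum_add_distrib]
      map_smul' := fun r g => by simp [smul_sum] }
  have hφ0 : ∀ g, φ0 g ∈ DegS k n a ⊓ FixS k H := fun g =>
    ⟨mem_DegS.2 (SupP.sum fun i _ => SupD.mul (P'' := fun d => d = a) ((hSub i _).1 (g i).2).2
      (hc i).2 fun d d' h1 h2 => by rw [h2, h1]),
     mem_FixS.2 (FixH.sum fun i _ => ((hSub i _).1 (g i).2).1.of_top.mul (hc i).1)⟩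
  have hle : ∀ i, a i ≤ n := fun i =>
    (single_le_sum (f := a) (fun _ _ => Nat.zero_le _) (mem_univ i)).trans ha
  have hbij : Function.Bijective (φ0.codRestrict _ hφ0) := by
    constructor
    · rw [injective_iff_map_eq_zero]
      intro g hg
      funext i
      exact Subtype.ext (fam_inj c dg hne hD hc hspan hind hinj _ a rfl ha (fun i => g i)
        (fun i => (hSub i _).1 (g i).2) (congrArg Subtype.val hg) i)
    · rintro ⟨v, hv1, hv2⟩
      obtain ⟨g, hg, hg'⟩ := fam_surj c dg hne hD hc hspan _ a rfl hle v (mem_FixS.1 hv2)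
        (mem_DegS.1 hv1)
      exact ⟨fun i => ⟨g i, (hSub i _).2 (hg i)⟩, Subtype.ext hg'.symm⟩
  have hfr := (LinearEquiv.ofBijective _ hbij).finrank_eq
  rw [Module.finrank_pi_fintype, Fintype.sum_sigma] at hfr
  rw [← hfr, Nat.cast_sum]
  refine sum_congr rfl fun b _ => ?_
  have h4 := hc4 b
  have h5 : ∀ j : Fin (t b), Module.finrank ℂ (Sub ⟨b, j⟩) = if ∀ r, cs b r ≤ a r then
      Module.finrank ℂ ↥(DegS k n (a - cs b) ⊓ FixS k ⊤) else 0 := by
    intro j
    by_cases h : ∀ r, cs b r ≤ a r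
    · rw [if_pos h, show Sub ⟨b, j⟩ = DegS k n (a - cs b) ⊓ FixS k ⊤ from if_pos h]
    · rw [if_neg h, show Sub ⟨b, j⟩ = ⊥ from if_neg h, finrank_bot]
  simp only [h5, sum_const, card_univ, Fintype.card_fin, smul_eq_mul]
  by_cases h : ∀ r, cs b r ≤ a r
  · rw [if_pos h, if_pos h]
    simp only [cs] at h4 ⊢
    rw [← h4]
    push_cast
    ring
  · rw [if_neg h, if_neg h]; simp

end Pool.Agent.H291Z.Kos
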