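import Pool.Agent.H304Z.NH.Spec3

set_option autoImplicit false
set_option linter.unusedSectionVars false
set_option linter.unusedVariables false

namespace Pool.Agent.H291Z.NHLI

open Matrix Finset Pool.Agent.H304Z.NH
open scoped MatrixOrder ComplexOrder

variable {n : Type} [Fintype n] [DecidableEq n] {I : Type} [Fintype I] [Nonempty I]

theorem card_mul (I : Type) [Fintype I] [Nonempty I] :
    (Fintype.card I : ℝ)⁻¹ * Fintype.card I = 1 :=
  inv_mul_cancel₀ (Nat.cast_ne_zero.2 Fintype.card_ne_zero)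

theorem avg_const (x : Mat n) : (Fintype.card I : ℝ)⁻¹ • ∑ _i : I, x = x := by
  rw [sum_const, card_univ, ← Nat.cast_smul_eq_nsmul ℝ, smul_smul, card_mul, one_smul]

theorem avg_le (x : I → Mat n) :
    ((Fintype.card I : ℝ)⁻¹ • ∑ i, x i) * ((Fintype.card I : ℝ)⁻¹ • ∑ i, x i)ᴴ ≤
      (Fintype.card I : ℝ)⁻¹ • ∑ i, x i * (x i)ᴴ := by
  set b := (Fintype.card I : ℝ)⁻¹ • ∑ i, x i with hb
  have h0 : 0 ≤ (Fintype.card I : ℝ)⁻¹ • ∑ i, (x i - b) * (x i - b)ᴴ :=
    rsmul_nonneg (by positivity) (sum_nonneg fun i _ => mul_star_nonneg _)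
  have h1 : ∀ i, (x i - b) * (x i - b)ᴴ = x i * (x i)ᴴ - x i * bᴴ - b * (x i)ᴴ + b * bᴴ := by
    intro i; rw [conjTranspose_sub]; noncomm_ring
  have h2 : (Fintype.card I : ℝ)⁻¹ • ∑ i, x i * bᴴ = b * bᴴ := by
    rw [← sum_mul, ← Matrix.smul_mul]
  have h3 : (Fintype.card I : ℝ)⁻¹ • ∑ i, b * (x i)ᴴ = b * bᴴ := by
    rw [← mul_sum, ← Matrix.mul_smul, ← conjTranspose_sum, ← rsmul_star]
  simp only [h1, sum_add_distrib, sum_sub_distrib, smul_add, smul_sub, h2, h3, avg_const] at h0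
  rw [← sub_nonneg]
  convert h0 using 1
  abel

theorem nsq_avg_le (x : I → Mat n) (B : ℝ) (h : ∀ i, nsq (x i) ≤ B) :
    nsq ((Fintype.card I : ℝ)⁻¹ • ∑ i, x i) ≤ B := by
  rw [nsq_eq']
  refine (tr_mono (avg_le x)).trans ?_
  rw [tr_smul, tr_sum]
  have : ∑ i, tr (x i * (x i)ᴴ) ≤ Fintype.card I * B := by
    rw [← nsmul_eq_mul, ← card_univ]
    exact sum_le_card_nsmul _ _ _ fun i _ => by rw [← nsq_eq']; exact h i
  refine (mul_le_mul_of_nonneg_left this (by positivity)).trans ?_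
  rw [← mul_assoc, card_mul, one_mul]

variable {G : Type} {u : G → Mat n} {γ : I → G}

theorem av_star (y : Mat n) : (av u γ y)ᴴ = av u γ yᴴ := by
  simp only [av, rsmul_star, conjTranspose_sum, conjTranspose_mul, conjTranspose_conjTranspose,
    Matrix.mul_assoc]

theorem av_mul_le (hu : ∀ g, IsU (u g)) (y : Mat n) :
    av u γ y * (av u γ y)ᴴ ≤ av u γ (y * yᴴ) := by
  refine (avg_le _).trans (le_of_eq ?_)
  unfold av
  congr 1
  refine sum_congr rfl fun i _ => ?_
  simp only [conjTranspose_mul, conjTranspose_conjTranspose, Matrix.mul_assoc]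
  rw [← Matrix.mul_assoc (u (γ i))ᴴ, (hu _).1, Matrix.one_mul]

theorem av_sum {ι : Type} [Fintype ι] (y : ι → Mat n) :
    ∑ a, av u γ (y a) = av u γ (∑ a, y a) := by
  simp only [av, ← smul_sum, mul_sum, sum_mul]
  rw [sum_comm]

theorem av_mono {a b : Mat n} (h : a ≤ b) : av u γ a ≤ av u γ b :=
  rsmul_le (by positivity) (sum_le_sum fun i _ => conj_le' h _)

theorem av_smul (r : ℝ) (a : Mat n) : av u γ (r • a) = r • av u γ a := by
  simp only [av, Matrix.mul_smul, Matrix.smul_mul, ← smul_sum]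
  rw [smul_comm]

theorem av_one (hu : ∀ g, IsU (u g)) : av u γ 1 = 1 := by
  simp only [av, Matrix.mul_one, (hu _).2, avg_const]

theorem nsq_av_le (hu : ∀ g, IsU (u g)) (x : Mat n) : nsq (av u γ x) ≤ nsq x :=
  nsq_avg_le _ _ fun i => by rw [nsq_mul_U (hu _).star, nsq_U_mul (hu _)]

variable {ι : Type} [Fintype ι] {U : Mat n} {m : ℝ}

theorem LL_nonneg (y : ι → Mat n) : 0 ≤ LL y := sum_nonneg fun _ _ => mul_star_nonneg _

theorem RR_eq (y : ι → Mat n) : RR y = LL fun a => (y a)ᴴ := by simp [RR, LL]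

theorem LL_av (hu : ∀ g, IsU (u g)) (y : ι → Mat n) :
    LL (fun a => av u γ (y a)) ≤ av u γ (LL y) := by
  unfold LL
  rw [← av_sum]
  exact sum_le_sum fun a _ => av_mul_le hu _

theorem sum_nsq_mul (x : Mat n) (y : ι → Mat n) : ∑ a, nsq (x * y a) = tr (xᴴ * x * LL y) := by
  simp only [nsq_mul, LL, mul_sum, tr_sum]

theorem sum_nsq_le (hU : IsProj U) {y : ι → Mat n} (h : LL y ≤ m • U) (x : Mat n) :
    ∑ a, nsq (x * y a) ≤ m * nsq (x * U) := by
  rw [sum_nsq_mul, hU.nsq_mul, ← tr_smul, ← Matrix.mul_smul]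
  exact tr_mul_le (star_mul_nonneg x) h

theorem LL_cut (hU : IsProj U) (y : ι → Mat n) : LL (fun a => U * y a * U) ≤ U * LL y * U := by
  unfold LL
  rw [mul_sum, sum_mul]
  refine sum_le_sum fun a _ => ?_
  have := conj_le' hU.mul_star_le (U * y a)
  simpa only [conjTranspose_mul, hU.1, Matrix.mul_one, Matrix.mul_assoc] using this

theorem side (hu : ∀ g, IsU (u g)) (hU : IsProj U) (hm : 0 < m) {y : ι → Mat n}
    (h : LL y ≤ m • U) {B : ℝ} (hB : ∀ i, nsq (cm (u (γ i)) U) ≤ B) :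
    LL (fun a => U * av u γ (y a) * U) ≤ m • U ∧
      nsq (LL fun a => U * av u γ (y a) * U) ≤ nsq (LL y) ∧
      ∑ a, nsq ((1 - U) * av u γ (y a)) ≤ m * B := by
  have h1 : LL (fun a => U * av u γ (y a) * U) ≤ U * av u γ (LL y) * U := by
    refine (LL_cut hU _).trans ?_
    simpa only [hU.1] using conj_le' (LL_av (γ := γ) hu y) U
  have h2 : av u γ (LL y) ≤ m • av u γ U := by rw [← av_smul]; exact av_mono h
  refine ⟨h1.trans ?_, (nsq_mono (LL_nonneg _) h1).trans ?_, ?_⟩
  · have h3 : av u γ U ≤ 1 := by rw [← av_one (γ := γ) hu]; exact av_mono hU.le_one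
    have := conj_le' (h2.trans (rsmul_le hm.le h3)) U
    rwa [hU.1, Matrix.mul_smul, Matrix.smul_mul, Matrix.mul_one, hU.2] at this
  · exact (nsq_mul_le_right hU.mul_star_le _).trans
      ((nsq_mul_le_left hU.star_mul_le _).trans (nsq_av_le hu _))
  · rw [sum_nsq_mul]
    refine (tr_mul_le (star_mul_nonneg _) ((LL_av hu y).trans h2)).trans ?_
    rw [Matrix.mul_smul, tr_smul]
    refine mul_le_mul_of_nonneg_left ?_ hm.le
    unfold av
    rw [Matrix.mul_smul, tr_smul, mul_sum, tr_sum]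
    have : ∑ i, tr ((1 - U)ᴴ * (1 - U) * (u (γ i) * U * (u (γ i))ᴴ)) ≤ Fintype.card I * B := by
      rw [← nsmul_eq_mul, ← card_univ]
      refine sum_le_card_nsmul _ _ _ fun i _ => le_trans (le_of_eq ?_)
        ((nsq_mul_le_left hU.compl.star_mul_le _).trans (hB i))
      have e : (1 - U) * cm (u (γ i)) U = (1 - U) * (u (γ i) * U) := by
        have : (1 - U) * cm (u (γ i)) U =
            (1 - U) * (u (γ i) * U) - (U - U * U) * u (γ i) := by simp only [cm]; noncomm_ring
        rw [this, hU.2, sub_self, Matrix.zero_mul, sub_zero]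
      rw [e, nsq_mul, conjTranspose_mul, hU.1, Matrix.mul_assoc (u (γ i)) U (U * _),
        ← Matrix.mul_assoc U U, hU.2, Matrix.mul_assoc (u (γ i))]
    refine (mul_le_mul_of_nonneg_left this (by positivity)).trans ?_
    rw [← mul_assoc, card_mul, one_mul]

theorem bes (hu : ∀ g, IsU (u g)) (hU : IsProj U) {y : ι → Mat n} (h : Bes y) :
    Bes fun a => U * av u γ (y a) * U := by
  intro x
  have e : ∀ a, trace ((U * av u γ (y a) * U)ᴴ * x) = trace ((y a)ᴴ *
      ((Fintype.card I : ℝ)⁻¹ • ∑ i, (u (γ i))ᴴ * (U * x * U) * u (γ i))) := by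
    intro a
    rw [conjTranspose_mul, conjTranspose_mul, hU.1, av_star, Matrix.mul_assoc, trace_mul_comm]
    simp only [av, Matrix.smul_mul, Matrix.mul_smul, trace_smul, sum_mul, mul_sum, trace_sum]
    congr 1
    refine sum_congr rfl fun i _ => ?_
    simp only [Matrix.mul_assoc]
    rw [trace_mul_comm]
    simp only [Matrix.mul_assoc]
  simp only [e]
  refine (h _).trans (nsq_avg_le _ _ fun i => ?_)
  rw [nsq_mul_U (hu _), nsq_U_mul (hu _).star]
  exact (nsq_mul_le_right hU.mul_star_le _).trans (nsq_mul_le_left hU.star_mul_le _)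

theorem li (hGM : S_GM) : Pool.Agent.H304Z.NH.S_LI := by
  classical
  intro G _ S θ hK
  obtain ⟨K, hK0, hK1⟩ := hGM G S hK
  refine ⟨2 * K, by positivity, fun η hη => ?_⟩
  obtain ⟨I, _, _, γ, W, δ, hδ, H⟩ := hK1 (η / 4) (by positivity)
  refine ⟨W.image θ ∪ univ.image (fun i => θ (γ i)), min δ (η / (64 * (S.card + 1))),
    lt_min hδ (by positivity), ?_⟩
  set ω := min δ (η / (64 * (S.card + 1))) with hω
  have hω0 : 0 < ω := lt_min hδ (by positivity)
  have hω1 : ω ≤ δ := min_le_left _ _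
  have hω2 : ω * (64 * (S.card + 1)) ≤ η := by
    rw [← le_div_iff₀ (by positivity)]; exact min_le_right _ _
  rintro n _ _ u U ⟨hu, hu1, hU, hU0, hdf, hcm⟩ m hm ι _ y ⟨hB, hL, hR⟩
  set v : G → Mat n := fun g => u (θ g) with hv
  have hvU : ∀ g, IsU (v g) := fun g => hu _
  have hc : 0 < m * tr U := by positivity
  rw [RR_eq] at hR
  have hA : ∑ a, nsq (y a) ≤ m * tr U := by
    have := sum_nsq_le hU hL 1
    simpa only [Matrix.one_mul, hU.nsq_eq] using this
  obtain ⟨h1, h2⟩ := H n v hvU (by simp [hv, hu1]) ι y (m * tr U) hc hA (by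
    intro g hg h hh
    have e : df v g h = df u (θ g) (θ h) := by simp [df, hv]
    have h3 := (hdf (θ g) (mem_union_left _ (mem_image_of_mem _ hg)) (θ h)
      (mem_union_left _ (mem_image_of_mem _ hh))).1
    have h4 : m * nsq (df u (θ g) (θ h) * U) ≤ δ * (m * tr U) := by
      have := mul_le_mul_of_nonneg_right hω1 hU0.le
      nlinarith
    rw [e]
    refine ⟨(sum_nsq_le hU hL _).trans h4, le_trans (le_of_eq ?_) ((sum_nsq_le hU hR _).trans h4)⟩
    refine sum_congr rfl fun a _ => ?_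
    rw [← nsq_star, conjTranspose_mul, conjTranspose_conjTranspose])
  have hcm' : ∀ i, nsq (cm (v (γ i)) U) ≤ ω * tr U := fun i =>
    hcm _ (mem_union_right _ (mem_image_of_mem (fun i => θ (γ i)) (mem_univ i)))
  obtain ⟨l1, l2, l3⟩ := side (γ := γ) hvU hU hm hL hcm'
  obtain ⟨r1, r2, r3⟩ := side (γ := γ) hvU hU hm hR hcm'
  have eR : RR (fun a => U * av v γ (y a) * U) = LL fun a => U * av v γ (y a)ᴴ * U := by
    rw [RR_eq]
    simp only [conjTranspose_mul, hU.1, av_star, Matrix.mul_assoc]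
  have hD : ∑ a, nsq (av v γ (y a) - U * av v γ (y a) * U) ≤ 4 * (ω * (m * tr U)) := by
    have : ∀ a, nsq (av v γ (y a) - U * av v γ (y a) * U) ≤
        2 * nsq ((1 - U) * av v γ (y a)) + 2 * nsq ((1 - U) * av v γ (y a)ᴴ) := by
      intro a
      have e : av v γ (y a) - U * av v γ (y a) * U =
          (1 - U) * av v γ (y a) + U * (av v γ (y a) * (1 - U)) := by noncomm_ring
      have h5 := nsq_mul_le_left hU.star_mul_le (av v γ (y a) * (1 - U))
      rw [← nsq_star (av v γ (y a) * (1 - U)), conjTranspose_mul, hU.compl.1, av_star] at h5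
      have h6 := nsq_add_le ((1 - U) * av v γ (y a)) (U * (av v γ (y a) * (1 - U)))
      rw [e]
      linarith
    refine (sum_le_sum fun a _ => this a).trans ?_
    rw [sum_add_distrib, ← mul_sum, ← mul_sum]
    nlinarith
  have hS : (0 : ℝ) ≤ S.card := Nat.cast_nonneg _
  have h7 := mul_le_mul_of_nonneg_right hω2 hc.le
  have h8 := mul_pos hω0 hc
  refine ⟨fun a => U * av v γ (y a) * U, ⟨bes hvU hU hB, l1, by rw [eR]; exact r1⟩, l2,
    by rw [eR, RR_eq]; exact r2, ?_, ?_⟩
  · have : ∀ a, en v S (U * av v γ (y a) * U) ≤ 2 * en v S (av v γ (y a)) +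
        8 * S.card * nsq (av v γ (y a) - U * av v γ (y a) * U) := by
      intro a
      unfold en
      have e : 8 * S.card * nsq (av v γ (y a) - U * av v γ (y a) * U) =
          ∑ _s ∈ S, 8 * nsq (av v γ (y a) - U * av v γ (y a) * U) := by
        rw [sum_const, nsmul_eq_mul]; ring
      rw [mul_sum, e, ← sum_add_distrib]
      refine sum_le_sum fun s _ => ?_
      have h5 := nsq_sub_le (cm (v s) (av v γ (y a)))
        (cm (v s) (av v γ (y a) - U * av v γ (y a) * U))
      rw [← cm_sub, sub_sub_cancel] at h5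
      have h6 := nsq_cm_le (hvU s) (av v γ (y a) - U * av v γ (y a) * U)
      linarith
    refine (sum_le_sum fun a _ => this a).trans ?_
    rw [sum_add_distrib, ← mul_sum, ← mul_sum]
    have h9 := mul_le_mul_of_nonneg_left hD (show (0 : ℝ) ≤ 8 * S.card by positivity)
    nlinarith
  · have : ∀ a, nsq (y a - U * av v γ (y a) * U) ≤ 2 * nsq (y a - av v γ (y a)) +
        2 * nsq (av v γ (y a) - U * av v γ (y a) * U) := by
      intro a
      have := nsq_add_le (y a - av v γ (y a)) (av v γ (y a) - U * av v γ (y a) * U)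
      rwa [sub_add_sub_cancel] at this
    refine (sum_le_sum fun a _ => this a).trans ?_
    rw [sum_add_distrib, ← mul_sum, ← mul_sum]
    have h9 := mul_nonneg hS h8.le
    unfold EE
    nlinarith

end Pool.Agent.H291Z.NHLI
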