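import Mathlib

set_option autoImplicit false

open Set Filter Topology Metric

namespace Pool.Agent.H291Z.ZeroOne

abbrev V := Fin 3 → ℝ

/-- seminorm conditions -/
def IsSN (f : C(V, ℝ)) : Prop :=
  (∀ x y, f (x + y) ≤ f x + f y) ∧ (∀ (c : ℝ) x, f (c • x) = |c| * f x)

/-- norm conditions -/
def IsN (f : C(V, ℝ)) : Prop :=
  (∀ x, f x = 0 → x = 0) ∧ (∀ x y, f (x + y) ≤ f x + f y) ∧ (∀ (c : ℝ) x, f (c • x) = |c| * f x)

lemma IsSN.zero {f : C(V, ℝ)} (h : IsSN f) : f 0 = 0 := by
  have := h.2 0 0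
  simpa using this

lemma IsSN.neg {f : C(V, ℝ)} (h : IsSN f) (x : V) : f (-x) = f x := by
  have := h.2 (-1) x
  simpa using this

lemma IsSN.nonneg {f : C(V, ℝ)} (h : IsSN f) (x : V) : 0 ≤ f x := by
  have h1 := h.1 x (-x)
  rw [add_neg_cancel, h.zero, h.neg] at h1
  linarith

lemma IsN.isSN {f : C(V, ℝ)} (h : IsN f) : IsSN f := h.2

lemma isClosed_SN : IsClosed {f : C(V, ℝ) | IsSN f} := by
  have h1 : {f : C(V, ℝ) | IsSN f} =
      (⋂ x, ⋂ y, {f : C(V, ℝ) | f (x + y) ≤ f x + f y}) ∩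
        (⋂ c : ℝ, ⋂ x, {f : C(V, ℝ) | f (c • x) = |c| * f x}) := by
    ext f; simp [IsSN]
  rw [h1]
  refine IsClosed.inter ?_ ?_
  · refine isClosed_iInter fun x => isClosed_iInter fun y => ?_
    exact isClosed_le (by fun_prop) (by fun_prop)
  · refine isClosed_iInter fun c => isClosed_iInter fun x => ?_
    exact isClosed_eq (by fun_prop) (by fun_prop)

lemma baire_SN : BaireSpace {f : C(V, ℝ) // IsSN f} := by
  have : TopologicalSpace.IsCompletelyPseudoMetrizableSpace {f : C(V, ℝ) // IsSN f} :=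
    isClosed_SN.isClosedEmbedding_subtypeVal.IsCompletelyPseudoMetrizableSpace
  infer_instance

lemma isN_iff {f : C(V, ℝ)} (h : IsSN f) : IsN f ↔ MapsTo f (sphere 0 1) (Ioi 0) := by
  constructor
  · intro hN x hx
    have hx1 : ‖x‖ = 1 := by simpa using hx
    have hne : x ≠ 0 := by rintro rfl; simp at hx1
    have := h.nonneg x
    rcases this.lt_or_eq with h1 | h1
    · exact h1
    · exact absurd (hN.1 x h1.symm) hne
  · intro hm
    refine ⟨fun x hx => ?_, h⟩
    by_contra hne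
    have hpos : 0 < ‖x‖ := norm_pos_iff.2 hne
    have h1 : (‖x‖⁻¹ • x) ∈ sphere (0 : V) 1 := by
      simp [norm_smul, hpos.ne']
    have h2 := hm h1
    rw [mem_Ioi, h.2, hx] at h2
    simp at h2

lemma baire_N : BaireSpace {f : C(V, ℝ) // IsN f} := by
  have := baire_SN
  let p : {f : C(V, ℝ) // IsN f} → {f : C(V, ℝ) // IsSN f} := fun f => ⟨f.1, f.2.isSN⟩
  have hp : IsOpenEmbedding p := by
    refine ⟨?_, ?_⟩
    · exact IsEmbedding.of_comp (by fun_prop) continuous_subtype_val
        (g := Subtype.val) IsEmbedding.subtypeVal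
    · have : range p = Subtype.val ⁻¹' {f : C(V, ℝ) | MapsTo f (sphere 0 1) (Ioi 0)} := by
        ext f
        simp only [mem_range, mem_preimage, mem_setOf_eq]
        rw [← isN_iff f.2]
        constructor
        · rintro ⟨g, rfl⟩; exact g.2
        · intro h; exact ⟨⟨f.1, h⟩, rfl⟩
      rw [this]
      exact (ContinuousMap.isOpen_setOfPred_mapsTo (isCompact_sphere 0 1) isOpen_Ioi).preimage
        continuous_subtype_val
  exact hp.baireSpace

/-- A residual set of norms contains norms uniformly close to any given norm on a ball. -/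
lemma exists_close {A : Set {f : C(V, ℝ) // IsN f}} (hA : A ∈ residual _)
    (N₀ : {f : C(V, ℝ) // IsN f}) (M δ : ℝ) (hδ : 0 < δ) :
    ∃ N ∈ A, ∀ x : V, ‖x‖ ≤ M → |N.1 x - N₀.1 x| < δ := by
  have := baire_N
  have hd : Dense A := dense_of_mem_residual hA
  let U : Set {f : C(V, ℝ) // IsN f} :=
    (fun N => N.1 - N₀.1) ⁻¹' {f : C(V, ℝ) | MapsTo f (closedBall 0 M) (Ioo (-δ) δ)}
  have hU : IsOpen U :=
    (ContinuousMap.isOpen_setOfPred_mapsTo (isCompact_closedBall 0 M) isOpen_Ioo).preimage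
      (by fun_prop)
  have hne : U.Nonempty := ⟨N₀, by
    intro x _
    simp [hδ]⟩
  obtain ⟨N, hNA, hNU⟩ := hd.exists_mem_open hU hne
  refine ⟨N, hNA, fun x hx => ?_⟩
  have := hNU (show x ∈ closedBall (0 : V) M by simpa using hx)
  simp only [ContinuousMap.coe_sub, Pi.sub_apply, mem_Ioo] at this
  exact abs_lt.2 this

/-- The norm induced by an injective linear map. -/
noncomputable def indN {F : Type} [NormedAddCommGroup F] [NormedSpace ℝ F] (Φ : V →L[ℝ] F)
    (hΦ : ∀ x, Φ x = 0 → x = 0) : {f : C(V, ℝ) // IsN f} :=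
  ⟨⟨fun x => ‖Φ x‖, by fun_prop⟩, fun x hx => hΦ x (by simpa using hx),
    fun x y => by simpa using norm_add_le (Φ x) (Φ y),
    fun c x => by simp [norm_smul]⟩

/-- No five almost equidistant points in Euclidean 3-space. -/
lemma no_five (q : Fin 5 → V)
    (h : ∀ i j, i ≠ j → |∑ k, (q i k - q j k) ^ 2 - 1| ≤ 1 / 5) : False := by
  have hdep : ¬ LinearIndependent ℝ (fun i : Fin 5 => ((1 : ℝ), q i)) := by
    intro hl
    have := hl.fintype_card_le_finrank
    simp at this
  rw [Fintype.not_linearIndependent_iff] at hdep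
  obtain ⟨c, hc, i0, hi0⟩ := hdep
  have h1 : ∑ i, c i = 0 := by
    have := congrArg Prod.fst hc
    simpa [Prod.fst_sum] using this
  have h2 : ∀ k, ∑ i, c i * q i k = 0 := by
    intro k
    have := congrFun (congrArg Prod.snd hc) k
    simpa [Prod.snd_sum, Finset.sum_apply] using this
  have key : ∑ i, ∑ j, c i * c j * ∑ k, (q i k - q j k) ^ 2 = 0 := by
    have : ∀ k, ∑ i, ∑ j, c i * c j * (q i k - q j k) ^ 2 =
        2 * (∑ i, c i) * (∑ i, c i * q i k ^ 2) - 2 * (∑ i, c i * q i k) ^ 2 := by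
      intro k
      simp only [Fin.sum_univ_five]; ring
    calc ∑ i, ∑ j, c i * c j * ∑ k, (q i k - q j k) ^ 2
        = ∑ k, ∑ i, ∑ j, c i * c j * (q i k - q j k) ^ 2 := by
          simp only [Fin.sum_univ_five, Fin.sum_univ_three]; ring
      _ = 0 := by
          refine Finset.sum_eq_zero fun k _ => ?_
          rw [this, h1, h2]; ring
  have bound : ∀ i j, c i * c j * ∑ k, (q i k - q j k) ^ 2 ≤
      if i = j then 0 else c i * c j + (c i ^ 2 + c j ^ 2) / 10 := by
    intro i j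
    split_ifs with hij
    · subst hij; simp
    · have h3 := abs_le.1 (h i j hij)
      set D := ∑ k, (q i k - q j k) ^ 2
      nlinarith [mul_nonneg (sq_nonneg (c i - c j)) (show 0 ≤ D - 1 + 1 / 5 by linarith),
        mul_nonneg (sq_nonneg (c i + c j)) (show 0 ≤ 1 / 5 - (D - 1) by linarith)]
  have h4 : ∑ i, ∑ j, c i * c j * ∑ k, (q i k - q j k) ^ 2 ≤
      ∑ i, ∑ j, if i = j then 0 else c i * c j + (c i ^ 2 + c j ^ 2) / 10 :=
    Finset.sum_le_sum fun i _ => Finset.sum_le_sum fun j _ => bound i j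
  have h5 : (∑ i, ∑ j, if i = j then 0 else c i * c j + (c i ^ 2 + c j ^ 2) / 10) =
      (∑ i, c i) ^ 2 - (∑ i, c i ^ 2) / 5 := by
    simp [Fin.sum_univ_five]; ring
  have h6 : 0 < ∑ i, c i ^ 2 :=
    Finset.sum_pos' (fun i _ => sq_nonneg _) ⟨i0, Finset.mem_univ _, by positivity⟩
  rw [key, h5, h1] at h4
  linarith

/-- Robustness lemma. -/
lemma robust {ι : Type} [Fintype ι] (a b : ι → Fin 5) (p : Fin 5 → V) (Φ : V →L[ℝ] (ι → ℝ))
    (h1 : ∀ k, Φ (p (a k) - p (b k)) k = 1)
    (h2 : ∀ k l, l ≠ k → |Φ (p (a k) - p (b k)) l| < 1)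
    (hs : ∀ t : ι → ℝ, ∃ u : Fin 5 → V, ∀ k, Φ (u (a k) - u (b k)) k = t k) :
    ∃ M δ : ℝ, 0 < δ ∧ ∀ N : C(V, ℝ), IsSN N → (∀ x : V, ‖x‖ ≤ M → |N x - ‖Φ x‖| < δ) →
      ∃ q : Fin 5 → V, ∀ k, N (q (a k) - q (b k)) = 1 := by
  classical
  set v : ι → V := fun k => p (a k) - p (b k) with hv
  -- local linearity
  have hloc : ∀ k, ∀ᶠ x in 𝓝 (v k), ‖Φ x‖ = Φ x k := by
    intro k
    have hpos : ∀ᶠ x in 𝓝 (v k), 0 < Φ x k := by
      have hc : ContinuousAt (fun x => Φ x k) (v k) := by fun_prop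
      apply hc.eventually (lt_mem_nhds _)
      simp only [hv, h1]; norm_num
    have hlt : ∀ l, ∀ᶠ x in 𝓝 (v k), l ≠ k → |Φ x l| < Φ x k := by
      intro l
      by_cases hl : l = k
      · exact Eventually.of_forall fun x hx => absurd hl hx
      · have hc1 : ContinuousAt (fun x => |Φ x l|) (v k) := by fun_prop
        have hc2 : ContinuousAt (fun x => Φ x k) (v k) := by fun_prop
        have := hc1.eventually_lt hc2 (by simp only [hv, h1]; exact h2 k l hl)
        exact this.mono fun x hx _ => hx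
    filter_upwards [hpos, eventually_all.2 hlt] with x hx1 hx2
    apply le_antisymm
    · refine (pi_norm_le_iff_of_nonneg hx1.le).2 fun l => ?_
      by_cases hl : l = k
      · subst hl; rw [Real.norm_eq_abs, abs_of_pos hx1]
      · exact (hx2 l hl).le
    · exact (le_abs_self _).trans (norm_le_pi_norm (Φ x) k)
  have hr : ∃ r > 0, ∀ k, ∀ x, dist x (v k) < r → ‖Φ x‖ = Φ x k := by
    have : ∀ k, ∀ᶠ r in 𝓝[>] (0 : ℝ), ∀ x, dist x (v k) < r → ‖Φ x‖ = Φ x k := by
      intro k
      obtain ⟨ε, hε, h⟩ := Metric.eventually_nhds_iff.1 (hloc k)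
      filter_upwards [Ioo_mem_nhdsGT hε] with r hr x hx
      exact h (hx.trans hr.2)
    obtain ⟨r, hr1, hr2⟩ := ((eventually_all.2 this).and self_mem_nhdsWithin).exists
    exact ⟨r, hr2, hr1⟩
  obtain ⟨r, hr0, hr⟩ := hr
  -- right inverse
  let L : (Fin 5 → V) →ₗ[ℝ] (ι → ℝ) :=
    { toFun := fun u k => Φ (u (a k) - u (b k)) k
      map_add' := by
        intro u w; funext k
        simp only [Pi.add_apply]
        rw [show u (a k) + w (a k) - (u (b k) + w (b k)) =
          (u (a k) - u (b k)) + (w (a k) - w (b k)) by abel, map_add]; rfl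
      map_smul' := by
        intro c u; funext k
        simp only [Pi.smul_apply, RingHom.id_apply]
        rw [← smul_sub, map_smul]; rfl }
  have hL : LinearMap.range L = ⊤ := by
    rw [LinearMap.range_eq_top]
    intro t
    obtain ⟨u, hu⟩ := hs t
    exact ⟨u, funext hu⟩
  obtain ⟨R, hR⟩ := L.exists_rightInverse_of_surjective hL
  let R' := LinearMap.toContinuousLinearMap R
  set C : ℝ := 2 * ‖R'‖ + 1 with hC
  have hC1 : 1 ≤ C := by have := norm_nonneg R'; linarith
  have hC0 : 0 < C := by linarith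
  let A : ι → (ι → ℝ) → V := fun k t => R t (a k) - R t (b k)
  have hA1 : ∀ k t, Φ (A k t) k = t k := by
    intro k t
    have := congrFun (LinearMap.congr_fun hR t) k
    simpa [L, A] using this
  have hA2 : ∀ k t s, ‖A k t - A k s‖ ≤ C * ‖t - s‖ := by
    intro k t s
    have e1 : A k t - A k s = R' (t - s) (a k) - R' (t - s) (b k) := by
      simp only [A, R', LinearMap.coe_toContinuousLinearMap', map_sub, Pi.sub_apply]; abel
    have e2 := R'.le_opNorm (t - s)
    have e3 := norm_le_pi_norm (R' (t - s)) (a k)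
    have e4 := norm_le_pi_norm (R' (t - s)) (b k)
    have e5 := norm_sub_le (R' (t - s) (a k)) (R' (t - s) (b k))
    have e6 := norm_nonneg (t - s)
    rw [e1, hC]; nlinarith
  have hA0 : ∀ k, A k 0 = 0 := by intro k; simp [A]
  set δ : ℝ := r / (8 * C) with hδ
  have hδ0 : 0 < δ := by positivity
  refine ⟨‖v‖ + r, δ, hδ0, fun N hN hclose => ?_⟩
  let g : ι → V → ℝ := fun k x => N x - Φ x k
  have hgb : ∀ k x, dist x (v k) < r → |g k x| ≤ δ := by
    intro k x hx
    have hx2 : ‖x‖ ≤ ‖v‖ + r := by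
      have e1 := norm_le_pi_norm v k
      have e2 : ‖x‖ ≤ ‖v k‖ + dist x (v k) := by
        rw [dist_eq_norm]; exact norm_le_insert' x (v k)
      linarith
    have := hclose x hx2
    rw [hr k x hx] at this
    exact this.le
  have hconv : ∀ k, ConvexOn ℝ (ball (v k) r) (g k) := by
    intro k
    refine ⟨convex_ball _ _, fun x _ y _ s t hs ht hst => ?_⟩
    have e1 := hN.1 (s • x) (t • y)
    rw [hN.2, hN.2, abs_of_nonneg hs, abs_of_nonneg ht] at e1
    simp only [g, map_add, map_smul, Pi.add_apply, Pi.smul_apply, smul_eq_mul]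
    linarith
  have hlip : ∀ k x y, dist x (v k) < r / 2 → dist y (v k) < r / 2 →
      |g k x - g k y| ≤ (1 / (2 * C)) * ‖x - y‖ := by
    intro k x y hx hy
    have := (hconv k).lipschitzOnWith_of_abs_le (ε := r / 2) (by positivity) (hgb k)
    have e := this.dist_le_mul x (by rw [mem_ball]; linarith) y (by rw [mem_ball]; linarith)
    rw [Real.dist_eq, dist_eq_norm, Real.coe_toNNReal _ (by positivity)] at e
    have e2 : 2 * δ / (r / 2) = 1 / (2 * C) := by rw [hδ]; field_simp; ring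
    rwa [e2] at e
  let T : (ι → ℝ) → (ι → ℝ) := fun t k => - g k (v k + A k t)
  have hin : ∀ k t, t ∈ closedBall (0 : ι → ℝ) δ → dist (v k + A k t) (v k) < r / 2 := by
    intro k t ht
    have ht' : ‖t‖ ≤ δ := by simpa using ht
    have e := hA2 k t 0
    rw [hA0, sub_zero, sub_zero] at e
    rw [dist_eq_norm, add_sub_cancel_left]
    have e2 : C * δ = r / 8 := by rw [hδ]; field_simp
    have e3 : C * ‖t‖ ≤ C * δ := by gcongr
    linarith
  have hmaps : MapsTo T (closedBall 0 δ) (closedBall 0 δ) := by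
    intro t ht
    rw [mem_closedBall, dist_zero_right, pi_norm_le_iff_of_nonneg hδ0.le]
    intro k
    simp only [T, norm_neg, Real.norm_eq_abs]
    exact hgb k _ ((hin k t ht).trans (by linarith))
  have hcontr : ContractingWith (1 / 2) (hmaps.restrict T _ _) := by
    refine ⟨by norm_num, LipschitzWith.of_dist_le_mul fun t s => ?_⟩
    rw [Subtype.dist_eq, Subtype.dist_eq, dist_eq_norm, dist_eq_norm]
    simp only [MapsTo.val_restrict_apply]
    rw [pi_norm_le_iff_of_nonneg (by positivity)]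
    intro k
    have e := hlip k _ _ (hin k t.1 t.2) (hin k s.1 s.2)
    rw [add_sub_add_left_eq_sub] at e
    have e2 := hA2 k t.1 s.1
    have e3 : (1 / (2 * C)) * ‖A k t.1 - A k s.1‖ ≤ (1 / (2 * C)) * (C * ‖t.1 - s.1‖) := by gcongr
    have e4 : (1 / (2 * C)) * (C * ‖t.1 - s.1‖) = 1 / 2 * ‖t.1 - s.1‖ := by field_simp
    simp only [T, Pi.sub_apply, Real.norm_eq_abs]
    rw [show -g k (v k + A k t.1) - -g k (v k + A k s.1) =
      -(g k (v k + A k t.1) - g k (v k + A k s.1)) by ring, abs_neg]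
    push_cast
    linarith
  haveI : CompleteSpace (closedBall (0 : ι → ℝ) δ) := isClosed_closedBall.completeSpace_coe
  haveI : Nonempty (closedBall (0 : ι → ℝ) δ) := ⟨⟨0, mem_closedBall_self hδ0.le⟩⟩
  let t := hcontr.fixedPoint
  have ht : T t.1 = t.1 := congrArg Subtype.val hcontr.fixedPoint_isFixedPt
  refine ⟨fun i => p i + R t.1 i, fun k => ?_⟩
  have e1 : p (a k) + R t.1 (a k) - (p (b k) + R t.1 (b k)) = v k + A k t.1 := by
    simp only [hv, A]; abel
  have e2 := congrFun ht k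
  simp only [T, g, map_add, Pi.add_apply, hA1] at e2
  have e3 : Φ (v k) k = 1 := h1 k
  simp only []
  rw [e1]; linarith

end Pool.Agent.H291Z.ZeroOne
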