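import Pool.Agent.H291Z.ZeroOne

set_option autoImplicit false

open Set Filter Topology Metric

namespace Pool.Agent.H291Z.ZeroOne

noncomputable def W : Fin 10 → Fin 3 → ℝ :=
  ![![1/2, 0, 0], ![5/11, -4/11, 2/11], ![5/11, 4/11, 2/11], ![5/13, 0, -4/13],
    ![-5/11, -4/11, 2/11], ![-4/9, 4/9, 1/9], ![-2/5, 0, -3/10], ![0, 1/2, 0],
    ![0, 1/7, -2/7], ![0, -1/7, -2/7]]

noncomputable def Phi : V →L[ℝ] (Fin 10 → ℝ) :=
  LinearMap.toContinuousLinearMap (Matrix.mulVecLin (Matrix.of W))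

lemma Phi_apply (x : V) (k : Fin 10) : Phi x k = W k 0 * x 0 + W k 1 * x 1 + W k 2 * x 2 := by
  simp [Phi, Matrix.mulVec, dotProduct, Fin.sum_univ_three]

def ea : Fin 10 → Fin 5 := ![0, 0, 0, 0, 1, 1, 1, 2, 2, 3]
def eb : Fin 10 → Fin 5 := ![1, 2, 3, 4, 2, 3, 4, 3, 4, 4]

noncomputable def P : Fin 5 → V := ![![1, 0, 1], ![-1, 0, 1], ![0, 1, 0], ![0, -1, 0], ![0, 0, 3]]

lemma edges : ∀ u v : Fin 5, u ≠ v → ∃ k, (ea k = u ∧ eb k = v) ∨ (ea k = v ∧ eb k = u) := by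
  decide

lemma Phi_inj (x : V) (h : Phi x = 0) : x = 0 := by
  have h0 := congrFun h 0
  have h7 := congrFun h 7
  have h8 := congrFun h 8
  rw [Phi_apply] at h0 h7 h8
  simp [W] at h0 h7 h8
  funext i
  fin_cases i
  · simpa using h0
  · simpa using h7
  · simp only [Fin.reduceFinMk, Pi.zero_apply]
    rw [h7] at h8
    linarith

lemma cond1 : ∀ k, Phi (P (ea k) - P (eb k)) k = 1 := by
  intro k
  rw [Phi_apply]
  fin_cases k <;> simp [W, P, ea, eb] <;> norm_num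

lemma cond2 : ∀ k l, l ≠ k → |Phi (P (ea k) - P (eb k)) l| < 1 := by
  intro k l h
  rw [Phi_apply, abs_lt]
  fin_cases k <;> fin_cases l <;> first | exact absurd rfl h | (simp [W, P, ea, eb] <;> norm_num)

lemma cond3 (t : Fin 10 → ℝ) : ∃ u : Fin 5 → V, ∀ k, Phi (u (ea k) - u (eb k)) k = t k := by
  refine ⟨![![0, (65/2) * t 0 + (-55/4) * t 1 + (-11) * t 2 + (-117/8) * t 3 + (-55/4) * t 4 + (-45/4) * t 5 + (-25/2) * t 6 + (15) * t 7 + (35/2) * t 8 + (91/8) * t 9, (-13/4) * t 3],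
 ![(-2) * t 0, (-86/3) * t 0 + (11) * t 1 + (11) * t 2 + (13) * t 3 + (11) * t 4 + (45/4) * t 5 + (65/6) * t 6 + (-12) * t 7 + (-14) * t 8 + (-91/8) * t 9, (8/3) * t 0 + (-10/3) * t 6],
 ![(-26) * t 0 + (44/5) * t 1 + (44/5) * t 2 + (52/5) * t 3 + (11) * t 4 + (9) * t 5 + (10) * t 6 + (-54/5) * t 7 + (-63/5) * t 8 + (-91/10) * t 9, (2) * t 7, (1) * t 7 + (-7/2) * t 8],
 ![(26) * t 0 + (-11) * t 1 + (-11) * t 2 + (-13) * t 3 + (-11) * t 4 + (-9) * t 5 + (-10) * t 6 + (12) * t 7 + (14) * t 8 + (21/2) * t 9, 0, (-7/2) * t 9],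
 ![0, 0, 0]], fun k => ?_⟩
  rw [Phi_apply]
  fin_cases k <;> simp [W, ea, eb] <;> ring

/-- Every norm close to the polyhedral norm has five equilateral points. -/
lemma near_poly : ∃ M δ : ℝ, 0 < δ ∧ ∀ N : C(V, ℝ), IsSN N →
    (∀ x : V, ‖x‖ ≤ M → |N x - ‖Phi x‖| < δ) →
    ∃ φ : Fin 5 → V, Function.Injective φ ∧
      ∀ u v, (⊤ : SimpleGraph (Fin 5)).Adj u v → N (φ u - φ v) = 1 := by
  obtain ⟨M, δ, hδ, h⟩ := robust ea eb P Phi cond1 cond2 cond3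
  refine ⟨M, δ, hδ, fun N hN hc => ?_⟩
  obtain ⟨q, hq⟩ := h N hN hc
  have key : ∀ u v, u ≠ v → N (q u - q v) = 1 := by
    intro u v huv
    obtain ⟨k, ⟨rfl, rfl⟩ | ⟨rfl, rfl⟩⟩ := edges u v huv
    · exact hq k
    · rw [← hN.neg, neg_sub]; exact hq k
  refine ⟨q, fun u v huv => ?_, fun u v huv => key u v huv⟩
  by_contra hne
  have := key u v hne
  rw [huv, sub_self, hN.zero] at this
  exact zero_ne_one this

noncomputable def Euc : V →L[ℝ] EuclideanSpace ℝ (Fin 3) :=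
  (EuclideanSpace.equiv (Fin 3) ℝ).symm.toContinuousLinearMap

lemma Euc_sq (x : V) : ‖Euc x‖ ^ 2 = ∑ k, x k ^ 2 := by
  rw [EuclideanSpace.real_norm_sq_eq]; simp [Euc]

lemma Euc_inj (x : V) (h : Euc x = 0) : x = 0 :=
  (EuclideanSpace.equiv (Fin 3) ℝ).symm.injective (by simpa [Euc] using h)

lemma sup_le_Euc (x : V) : ‖x‖ ≤ ‖Euc x‖ := by
  rw [pi_norm_le_iff_of_nonneg (norm_nonneg _)]
  intro i
  have := PiLp.norm_apply_le (Euc x) i
  simpa [Euc] using this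

/-- No norm close to the Euclidean norm has five equilateral points. -/
lemma near_euc (N : C(V, ℝ)) (hN : IsSN N) (hc : ∀ x : V, ‖x‖ ≤ 1 → |N x - ‖Euc x‖| < 1 / 20)
    (q : Fin 5 → V) (hq : ∀ u v, (⊤ : SimpleGraph (Fin 5)).Adj u v → N (q u - q v) = 1) :
    False := by
  apply no_five q
  intro i j hij
  have h1 := hq i j hij
  set x := q i - q j with hx
  have hx0 : x ≠ 0 := by
    intro h0; rw [h0, hN.zero] at h1; exact zero_ne_one h1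
  have hpos : 0 < ‖x‖ := norm_pos_iff.2 hx0
  have h2 := hc (‖x‖⁻¹ • x) (by simp [norm_smul, hpos.ne'])
  rw [hN.2, h1, map_smul, norm_smul, Real.norm_eq_abs, abs_of_pos (inv_pos.2 hpos), ← mul_sub,
    abs_mul, abs_of_pos (inv_pos.2 hpos), inv_mul_lt_iff₀ hpos, abs_lt] at h2
  have h3 := sup_le_Euc x
  have h4 : ∑ k, (q i k - q j k) ^ 2 = ‖Euc x‖ ^ 2 := by rw [Euc_sq]; rfl
  rw [h4, abs_le]
  set e := ‖Euc x‖
  have h5 : 20 / 21 ≤ e := by linarith [h2.2]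
  have h6 : e ≤ 20 / 19 := by linarith [h2.1]
  constructor <;> nlinarith

theorem main (h : Xor'
    ({N : {f : C(V, ℝ) // IsN f} | ∃ φ : Fin 5 → V, Function.Injective φ ∧
      ∀ u v, (⊤ : SimpleGraph (Fin 5)).Adj u v → N.1 (φ u - φ v) = 1} ∈ residual _)
    ({N : {f : C(V, ℝ) // IsN f} | ¬ ∃ φ : Fin 5 → V, Function.Injective φ ∧
      ∀ u v, (⊤ : SimpleGraph (Fin 5)).Adj u v → N.1 (φ u - φ v) = 1} ∈ residual _)) : False := by
  rcases h with ⟨hA, _⟩ | ⟨hB, _⟩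
  · obtain ⟨N, ⟨q, _, hq⟩, hc⟩ := exists_close hA (indN Euc Euc_inj) 1 (1 / 20) (by norm_num)
    exact near_euc N.1 N.2.isSN hc q hq
  · obtain ⟨M, δ, hδ, h⟩ := near_poly
    obtain ⟨N, hN, hc⟩ := exists_close hB (indN Phi Phi_inj) M δ hδ
    exact hN (h N.1 N.2.isSN hc)

end Pool.Agent.H291Z.ZeroOne
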